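import Pool.Agent.Lib.MP_a6d962_lc.GenN

/-!
# Uncountable subsets of the bases; the number of the ultrafilters
-/

set_option linter.unusedSimpArgs false

namespace Pool.Agent.Lib.MP_a6d962_lc

open Pool.Agent.Lib.Forcing
open Pool.Agent.Lib.MP_40b13d_lc (SubF eqF_of_sub memF_omegaN natN_mem_omegaN natN_inj
  forces_all_imp forces_ball' forces_iff' forces_dSub forces_ball_omega discN memF_discN mem_discN
  hasSurj_graphN hasInj_graphN)

variable {P : Type} [Preorder P] {L J : Type} (G : GSys P L J)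

theorem forces_hasSurj {c' : ULift.{0} ℕ → Name P} {a b : ℕ} {v : ℕ → Name P} {p : P}
    (ha : v a = omegaN) (hb : v b = discN c') : Forces (fSurj a b) v p := by
  rw [forces_iff]
  intro U _
  rw [sat_fSurj, ha, hb]
  exact hasSurj_graphN U (c := fun i : ULift.{0} ℕ => natN i.down) fun d d' p h => by
    have := natN_inj h
    cases d; cases d'
    simp only at this
    rw [this]

theorem forces_hasInj {c' : ULift.{0} ℕ → Name P} {a b : ℕ} {v : ℕ → Name P} {p : P}
    (ha : v a = omegaN) (hb : v b = discN c')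
    (hc' : ∀ d d' p, EqF (c' d) (c' d') p → d = d') : Forces (fInj a b) v p := by
  rw [forces_iff]
  intro U _
  rw [sat_fInj, ha, hb]
  exact hasInj_graphN U (c := fun i : ULift.{0} ℕ => natN i.down) (fun d d' p h => by
    have := natN_inj h
    cases d; cases d'
    simp only at this
    rw [this]) (fun d p => mem_discN c' d p) hc'

namespace GSys

variable {v : ℕ → Name P} {p : P}

/-- name of the set with index `e`, empty if `e` is not used -/
def AN (i : J) (e : L) : Name P :=
  cn (fun n : ℕ => natN n) (fun n p => i ∈ G.I p ∧ e ∈ G.D p ∧ n ∈ G.A p i e)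

theorem eqF_AN {i : J} {e : L} (hi : i ∈ G.I p) (he : e ∈ G.D p) :
    EqF (G.AN i e) (realN (G.A p i e)) p := by
  have hmono : ∀ (n : ℕ) (p q : P), (i ∈ G.I p ∧ e ∈ G.D p ∧ n ∈ G.A p i e) → q ≤ p →
      (i ∈ G.I q ∧ e ∈ G.D q ∧ n ∈ G.A q i e) := by
    rintro n p q ⟨h1, h2, h3⟩ hq
    exact ⟨G.I_mono hq h1, G.D_mono hq h2, by rw [G.A_eq hq i h1 e h2]; exact h3⟩
  apply eqF_of_sub
  · intro ρ r hr h
    rw [AN, memF_cn hmono] at h
    rw [memF_realN]
    intro q hq
    obtain ⟨s, hs, n, ⟨_, _, h3⟩, h4⟩ := h q hq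
    rw [G.A_eq (hs.trans (hq.trans hr)) i hi e he] at h3
    exact ⟨s, hs, n, h3, h4⟩
  · intro ρ r hr h
    rw [memF_realN] at h
    rw [AN, memF_cn hmono]
    intro q hq
    obtain ⟨s, hs, n, h3, h4⟩ := h q hq
    refine ⟨s, hs, n, hmono n p s ⟨hi, he, h3⟩ (hs.trans (hq.trans hr)), h4⟩

/-- The relation to which the fusion lemma is applied. -/
def Rel (i : J) (S : Name P) (q : P) (e : L) : Prop :=
  i ∈ G.I q ∧ e ∈ G.D q ∧ MemF (realN (G.A q i e)) S q

theorem forces_bounding {w b : ℕ} {i : J} (hw : v w = omegaN) (hb : v b = G.BN i) :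
    Forces (fBounding w b) v p := by
  unfold fBounding
  rw [forces_all_imp]
  intro S q _ hS
  rw [forces_dSub, cons_zero, cons_succ, hb] at hS
  rw [forces_or]
  intro r hr
  obtain ⟨r', hr', hi⟩ := G.dens_I r i
  have hrq : r' ≤ q := hr'.trans hr
  by_cases hbig : ∀ C : Set L, C.Countable → ∀ t, t ≤ r' → ∃ s, s ≤ t ∧ ∃ e, e ∉ C ∧ G.Rel i S s e
  · -- the fusion lemma
    obtain ⟨t, ht, b', d, hinj, hd, h1⟩ := G.fusion r' i hi (G.Rel i S)
      (fun q r e h hrq => ⟨G.I_mono hrq h.1, G.D_mono hrq h.2.1, by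
        rw [G.A_eq hrq i h.1 e h.2.1]; exact h.2.2.mono hrq⟩) (fun q e h => h.2.1) hbig
    have hit : i ∈ G.I t := G.I_mono ht hi
    refine ⟨t, ht.trans hr', Or.inr ?_⟩
    unfold fBdd
    refine forces_ex_of (discN fun n : ULift.{0} ℕ => realN (G.A t i (b' n.down))) ?_
    rw [forces_and, forces_and]
    refine ⟨?_, ?_, ?_⟩
    · rw [forces_dSub, cons_zero, cons_succ, cons_zero]
      intro ρ s hs h2
      refine MemF.dense fun s' hs' => ?_
      obtain ⟨s'', hs'', n, h3⟩ := memF_discN.1 h2 s' hs'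
      exact ⟨s'', hs'', ((h1 n.down).1.2.2.mono (hs''.trans (hs'.trans hs))).congr_left h3.symm⟩
    · refine forces_hasInj (by simp only [cons_succ]; exact hw) rfl ?_
      intro n m q h2
      have h3 := G.inj t i hit _ (h1 n.down).1.2.1 _ (h1 m.down).1.2.1 (eqF_realN.1 h2)
      have h4 := hinj h3
      cases n; cases m
      simp only at h4
      rw [h4]
    · refine forces_ex_of (realN (G.A t i d)) ?_
      rw [forces_and]
      refine ⟨?_, ?_⟩
      · rw [forces_mem]
        simp only [cons_zero, cons_succ, hb]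
        exact G.realN_mem_BN_of ⟨hit, d, hd, rfl⟩
      · rw [forces_ball']
        intro ρ s hs h2
        rw [forces_dSub]
        simp only [cons_zero, cons_one, cons_succ] at h2 ⊢
        apply SubF.dense
        intro s' hs'
        obtain ⟨s'', hs'', n, h3⟩ := memF_discN.1 h2 s' hs'
        refine ⟨s'', hs'', ?_⟩
        intro ρ' r'' hr'' h4
        exact (subF_realN.2 (h1 n.down).2 ρ' r'' hr'' h4).congr_right (h3.symm.mono hr'')
  · -- the countable case
    push Not at hbig
    obtain ⟨C, hC, t, ht, h1⟩ := hbig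
    refine ⟨t, ht.trans hr', Or.inl ?_⟩
    have hit : i ∈ G.I t := G.I_mono ht hi
    by_cases hL : Nonempty L
    · obtain ⟨g, hg⟩ : ∃ g : ℕ → L, C ⊆ Set.range g := by
        rcases C.eq_empty_or_nonempty with rfl | hne
        · exact ⟨fun _ => hL.some, Set.empty_subset _⟩
        · obtain ⟨g, hg⟩ := hC.exists_eq_range hne
          exact ⟨g, hg.le⟩
      unfold fCtble
      refine forces_ex_of (discN fun n : ULift.{0} ℕ => G.AN i (g n.down)) ?_
      rw [forces_and]
      refine ⟨?_, forces_hasSurj (by simp only [cons_succ]; exact hw) rfl⟩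
      rw [forces_dSub]
      simp only [cons_zero, cons_succ]
      intro ρ s hs h2
      rw [memF_discN]
      intro s' hs'
      have h3 : MemF ρ (G.BN i) s := hS ρ s (hs.trans (ht.trans hrq)) h2
      obtain ⟨s'', hs'', X, ⟨h4, e, h5, h6⟩, h7⟩ := G.memF_BN.1 h3 s' hs'
      have h8 : G.Rel i S s'' e := by
        refine ⟨h4, h5, ?_⟩
        rw [h6]
        exact (h2.mono (hs''.trans hs')).congr_left h7
      have h9 : e ∈ C := by
        by_contra h10
        exact h1 s'' (hs''.trans (hs'.trans hs)) e h10 h8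
      obtain ⟨n, hn⟩ := hg h9
      refine ⟨s'', hs'', ⟨n⟩, ?_⟩
      show EqF ρ (G.AN i (g n)) s''
      rw [hn]
      exact h7.trans (h6 ▸ (G.eqF_AN h4 h5).symm)
    · -- no elements at all
      unfold fCtble
      refine forces_ex_of (discN fun n : ULift.{0} ℕ => realN ∅) ?_
      rw [forces_and]
      refine ⟨?_, forces_hasSurj (by simp only [cons_succ]; exact hw) rfl⟩
      rw [forces_dSub]
      simp only [cons_zero, cons_succ]
      intro ρ s hs h2
      have h3 : MemF ρ (G.BN i) s := hS ρ s (hs.trans (ht.trans hrq)) h2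
      obtain ⟨s'', hs'', X, ⟨h4, e, h5, h6⟩, h7⟩ := G.memF_BN.1 h3 s le_rfl
      exact (hL ⟨e⟩).elim

/-- name of the set of the ultrafilters -/
def WN : Name P := discN G.UN

/-- Different indices give different ultrafilters. -/
theorem UN_ne {i j : J} (hij : i ≠ j) : ¬ EqF (G.UN i) (G.UN j) p := by
  intro h
  obtain ⟨q, hq, hi⟩ := G.dens_I p i
  obtain ⟨r, hr, hj⟩ := G.dens_I q j
  obtain ⟨s, hs, e, he, e', he', hd⟩ := G.sep r i (G.I_mono hr hi) j hj hij
  have hi' : i ∈ G.I s := G.I_mono (hs.trans hr) hi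
  have hj' : j ∈ G.I s := G.I_mono hs hj
  have h1 : MemF (realN (G.A s i e)) (G.UN i) s := G.realN_mem_UN_of ⟨hi', e, he, subset_rfl⟩
  have h2 := h1.congr_right (h.mono (hs.trans (hr.trans hq)))
  obtain ⟨t, ht, h3⟩ := G.realN_mem_UN.1 h2 s le_rfl
  have h4 : G.InU j (G.A s j e') t := G.inU_mono _ _ _ ⟨hj', e', he', subset_rfl⟩ ht
  obtain ⟨t', _, Z, h5, h6, h7⟩ := h3.inter h4
  obtain ⟨n, hn⟩ := h5.infinite.nonempty
  exact Set.disjoint_left.1 hd (h6 hn) (h7 hn)

theorem not_forces_inj {a b : ℕ} (ha : v a = G.WN) (hb : v b = powN) :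
    Forces (.fneg (fInj a b)) v p := by
  rw [forces_neg]
  intro q _ h
  unfold fInj at h
  rw [forces_ex] at h
  obtain ⟨r, _, f, h1⟩ := h q le_rfl
  rw [forces_and] at h1
  obtain ⟨hfun, hinj⟩ := h1
  have key : ∀ i : J, ∃ s, s ≤ r ∧ ∃ X : Set ℕ, MemF (opN (G.UN i) (realN X)) f s := by
    intro i
    unfold dFun at hfun
    rw [forces_and] at hfun
    have h2 := hfun.2
    rw [forces_ball'] at h2
    have h3 := h2 (G.UN i) r le_rfl (by
      simp only [cons_succ, ha]
      exact mem_discN G.UN i r)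
    rw [forces_bex] at h3
    obtain ⟨s, hs, k, h4, h5⟩ := h3 r le_rfl
    rw [forces_and] at h5
    have h6 := h5.1
    rw [forces_dApp] at h6
    simp only [cons_zero, cons_one, cons_succ] at h6 h4
    set τ := ((cons (G.UN i) (cons f v)) (b + 1 + 1)).nm k with hτ
    have h7 : MemF τ powN s := by
      have h8 : MemF τ ((cons (G.UN i) (cons f v)) (b + 1 + 1)) s := memF_of_idx k h4
      have e1 : (cons (G.UN i) (cons f v)) (b + 1 + 1) = powN := by
        simp only [cons_succ, hb]
      rw [e1] at h8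
      exact h8
    obtain ⟨t, ht, X, _, h9⟩ := (memF_cn_realN (fun _ _ _ h _ => h)).1 h7 s le_rfl
    refine ⟨t, ht.trans hs, X, ?_⟩
    exact (h6.mono ht).congr_left (eqF_opN.2 ⟨EqF.refl _ _, h9⟩)
  choose s hs X hX using key
  obtain ⟨i, j, hij, hXX, t, ht1, ht2⟩ := G.cc s X
  unfold fInjRel at hinj
  have h2 := hinj (G.UN i) (G.UN j) (realN (X i))
  rw [forces_imp] at h2
  have h3 := h2 t (ht1.trans (hs i)) (by
    rw [forces_dApp]
    exact (hX i).mono ht1)
  rw [forces_imp] at h3
  have h4 := h3 t le_rfl (by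
    rw [forces_dApp]
    simp only [cons_zero, cons_one, cons_two, cons_succ]
    rw [hXX]
    exact (hX j).mono ht2)
  exact G.UN_ne hij h4

end GSys

end Pool.Agent.Lib.MP_a6d962_lc
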