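import Mathlib

/-!
# The combinatorial interface of the forcing

`GSys P L J`: what the forcing argument needs to know about the set `P` of conditions.  A condition
`p` has a set `D p` of elements of `L`, a set `I p` of indices in `J` and, for `i ∈ I p` and
`e ∈ D p`, a set `A p i e` of natural numbers.
-/

open Cardinal

namespace Pool.Agent.Lib.MP_a6d962_lc

/-- The properties of the set of conditions which are used in the forcing argument. -/
structure GSys (P : Type) [Preorder P] (L J : Type) where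
  /-- the elements of the directed set decided by a condition -/
  D : P → Set L
  /-- the ultrafilters treated by a condition -/
  I : P → Set J
  /-- the set with index `e` in the base of the ultrafilter with index `i` -/
  A : P → J → L → Set ℕ
  D_mono : ∀ {p q : P}, q ≤ p → D p ⊆ D q
  I_mono : ∀ {p q : P}, q ≤ p → I p ⊆ I q
  A_eq : ∀ {p q : P}, q ≤ p → ∀ i ∈ I p, ∀ e ∈ D p, A q i e = A p i e
  /-- (B1) decreasing sequences have lower bounds -/
  closed : ∀ f : ℕ → P, (∀ n, f (n + 1) ≤ f n) → ∃ q, ∀ n, q ≤ f n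
  /-- (B2) the chain condition, with colours -/
  cc : ∀ (f : J → P) (x : J → Set ℕ), ∃ a b, a ≠ b ∧ x a = x b ∧ ∃ r, r ≤ f a ∧ r ≤ f b
  /-- (B3) every index can be added -/
  dens_I : ∀ (p : P) (i : J), ∃ q, q ≤ p ∧ i ∈ I q
  /-- (B4) every set of natural numbers is decided -/
  dens_A : ∀ (p : P), ∀ i ∈ I p, ∀ X : Set ℕ, ∃ q, q ≤ p ∧ ∃ e ∈ D q, A q i e ⊆ X ∨ A q i e ⊆ Xᶜ
  /-- (B4') the sets are directed -/
  dir : ∀ (p : P), ∀ i ∈ I p, ∀ e ∈ D p, ∀ e' ∈ D p, ∃ q, q ≤ p ∧ ∃ e'' ∈ D q,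
    A q i e'' ⊆ A q i e ∧ A q i e'' ⊆ A q i e'
  /-- (B4'') the sets are infinite -/
  inf : ∀ (p : P), ∀ i ∈ I p, ∀ e ∈ D p, (A p i e).Infinite
  /-- (B5) different indices give different ultrafilters -/
  sep : ∀ (p : P), ∀ i ∈ I p, ∀ j ∈ I p, i ≠ j → ∃ q, q ≤ p ∧ ∃ e ∈ D q, ∃ e' ∈ D q,
    Disjoint (A q i e) (A q j e')
  /-- (B6) inclusion does not depend on the index -/
  mono : ∀ (p : P), ∀ i ∈ I p, ∀ j ∈ I p, ∀ e ∈ D p, ∀ e' ∈ D p,
    A p i e ⊆ A p i e' → A p j e ⊆ A p j e'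
  /-- (B6') the sets are different -/
  inj : ∀ (p : P), ∀ i ∈ I p, ∀ e ∈ D p, ∀ e' ∈ D p, A p i e = A p i e' → e = e'
  /-- (B7) the fusion lemma: a big relation holds, below some condition, for the elements of an
  infinite set with an upper bound -/
  fusion : ∀ (p : P), ∀ i ∈ I p, ∀ R : P → L → Prop, (∀ q r e, R q e → r ≤ q → R r e) →
    (∀ q e, R q e → e ∈ D q) →
    (∀ C : Set L, C.Countable → ∀ r, r ≤ p → ∃ s, s ≤ r ∧ ∃ e, e ∉ C ∧ R s e) →
    ∃ q, q ≤ p ∧ ∃ (b : ℕ → L) (d : L), Function.Injective b ∧ d ∈ D q ∧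
      ∀ n, R q (b n) ∧ A q i d ⊆ A q i (b n)

end Pool.Agent.Lib.MP_a6d962_lc
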