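import Mathlib

/-!
Tukey reducibility of ultrafilters on the natural numbers, as in the problem file.
-/

namespace Pool.Agent.Lib.MP_a6d962_lc

/-- `TukeyLE V U`: the ultrafilter `V` is Tukey reducible to `U`, that is, some map from the
members of `U` to the members of `V` sends every cofinal family of members of `U` (every member
of `U` contains a member of the family) to a cofinal family of members of `V`. -/
def TukeyLE (V U : Ultrafilter ℕ) : Prop :=
  ∃ f : {X : Set ℕ // X ∈ U} → {X : Set ℕ // X ∈ V},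
    ∀ C : Set {X : Set ℕ // X ∈ U}, (∀ X : {X : Set ℕ // X ∈ U}, ∃ Y ∈ C, Y.1 ⊆ X.1) →
      ∀ Z : {X : Set ℕ // X ∈ V}, ∃ Y ∈ C, (f Y).1 ⊆ Z.1

end Pool.Agent.Lib.MP_a6d962_lc
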