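import Pool.Agent.Lib.MP_a6d962_lc.UltN

/-!
# Names for the generic ultrafilters and their bases
-/

set_option linter.unusedSimpArgs false

namespace Pool.Agent.Lib.MP_a6d962_lc

open Pool.Agent.Lib.Forcing
open Pool.Agent.Lib.MP_40b13d_lc (SubF eqF_of_sub memF_omegaN natN_mem_omegaN natN_inj
  forces_all_imp forces_ball' forces_iff' forces_dSub forces_ball_omega)

variable {P : Type} [Preorder P] {L J : Type} (G : GSys P L J)

namespace GSys

/-- `X` is put into the base with index `i` by `p`. -/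
def InB (i : J) (X : Set ℕ) (p : P) : Prop := i ∈ G.I p ∧ ∃ e ∈ G.D p, G.A p i e = X

/-- `X` is put into the ultrafilter with index `i` by `p`. -/
def InU (i : J) (X : Set ℕ) (p : P) : Prop := i ∈ G.I p ∧ ∃ e ∈ G.D p, G.A p i e ⊆ X

theorem inB_mono {i : J} (X : Set ℕ) (p q : P) (h : G.InB i X p) (hq : q ≤ p) : G.InB i X q := by
  obtain ⟨h1, e, h2, h3⟩ := h
  exact ⟨G.I_mono hq h1, e, G.D_mono hq h2, by rw [G.A_eq hq i h1 e h2, h3]⟩

theorem inU_mono {i : J} (X : Set ℕ) (p q : P) (h : G.InU i X p) (hq : q ≤ p) : G.InU i X q := by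
  obtain ⟨h1, e, h2, h3⟩ := h
  exact ⟨G.I_mono hq h1, e, G.D_mono hq h2, by rw [G.A_eq hq i h1 e h2]; exact h3⟩

/-- name of the base -/
def BN (i : J) : Name P := cn (fun X : Set ℕ => realN X) (G.InB i)

/-- name of the ultrafilter -/
def UN (i : J) : Name P := cn (fun X : Set ℕ => realN X) (G.InU i)

theorem memF_BN {i : J} {ρ : Name P} {p : P} : MemF ρ (G.BN i) p ↔
    ∀ r, r ≤ p → ∃ s, s ≤ r ∧ ∃ X, G.InB i X s ∧ EqF ρ (realN X) s :=
  memF_cn_realN G.inB_mono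

theorem memF_UN {i : J} {ρ : Name P} {p : P} : MemF ρ (G.UN i) p ↔
    ∀ r, r ≤ p → ∃ s, s ≤ r ∧ ∃ X, G.InU i X s ∧ EqF ρ (realN X) s :=
  memF_cn_realN G.inU_mono

theorem realN_mem_UN {i : J} {X : Set ℕ} {p : P} : MemF (realN X) (G.UN i) p ↔
    ∀ r, r ≤ p → ∃ s, s ≤ r ∧ G.InU i X s :=
  realN_mem_cn G.inU_mono

theorem realN_mem_UN_of {i : J} {X : Set ℕ} {p : P} (h : G.InU i X p) :
    MemF (realN X) (G.UN i) p :=
  G.realN_mem_UN.2 fun r hr => ⟨r, le_rfl, G.inU_mono _ _ _ h hr⟩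

theorem realN_mem_BN_of {i : J} {X : Set ℕ} {p : P} (h : G.InB i X p) :
    MemF (realN X) (G.BN i) p :=
  (realN_mem_cn G.inB_mono).2 fun r hr => ⟨r, le_rfl, G.inB_mono _ _ _ h hr⟩

variable {G}

theorem InU.inter {i : J} {X Y : Set ℕ} {p : P} (h : G.InU i X p) (h' : G.InU i Y p) :
    ∃ q, q ≤ p ∧ ∃ Z, G.InU i Z q ∧ Z ⊆ X ∧ Z ⊆ Y := by
  obtain ⟨h1, e, h2, h3⟩ := h
  obtain ⟨_, e', h4, h5⟩ := h'
  obtain ⟨q, hq, e'', h6, h8, h9⟩ := G.dir p i h1 e h2 e' h4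
  rw [G.A_eq hq i h1 e h2] at h8
  rw [G.A_eq hq i h1 e' h4] at h9
  exact ⟨q, hq, G.A q i e'', ⟨G.I_mono hq h1, e'', h6, subset_rfl⟩, h8.trans h3, h9.trans h5⟩

theorem InU.infinite {i : J} {X : Set ℕ} {p : P} (h : G.InU i X p) : X.Infinite := by
  obtain ⟨h1, e, h2, h3⟩ := h
  exact (G.inf p i h1 e h2).mono h3

variable (G)

theorem dens_U (p : P) (i : J) (X : Set ℕ) : ∃ q, q ≤ p ∧ (G.InU i X q ∨ G.InU i Xᶜ q) := by
  obtain ⟨r, hr, hi⟩ := G.dens_I p i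
  obtain ⟨q, hq, e, he, h⟩ := G.dens_A r i hi X
  exact ⟨q, hq.trans hr, h.imp (fun h => ⟨G.I_mono hq hi, e, he, h⟩)
    (fun h => ⟨G.I_mono hq hi, e, he, h⟩)⟩

variable {v : ℕ → Name P} {p : P}

theorem isUlt (i : J) : IsUlt (G.InU i) where
  mono := G.inU_mono
  up _ _ _ h h' := by
    obtain ⟨h1, e, h2, h3⟩ := h
    exact ⟨h1, e, h2, h3.trans h'⟩
  inter _ _ _ h h' := h.inter h'
  inf _ _ h := h.infinite
  dec X p := G.dens_U p i X

/-- Each name `UN i` is forced to be a nonprincipal ultrafilter. -/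
theorem forces_ultra {w u : ℕ} {i : J} (hw : v w = omegaN) (hu : v u = G.UN i) :
    Forces (fUltra w u) v p :=
  (G.isUlt i).forces G.closed hw hu

/-- `BN i` is forced to be a base of `UN i`. -/
theorem forces_base {b u : ℕ} {i : J} (hb : v b = G.BN i) (hu : v u = G.UN i) :
    Forces (fBase b u) v p := by
  unfold fBase
  rw [forces_and, forces_dSub, hb, hu, forces_ball', hu]
  constructor
  · intro ρ r _ h
    rw [G.memF_UN]
    intro q hq
    obtain ⟨s, hs, X, ⟨h1, e, h2, h3⟩, h4⟩ := G.memF_BN.1 h q hq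
    exact ⟨s, hs, X, ⟨h1, e, h2, h3.le⟩, h4⟩
  · intro τ q _ h
    rw [forces_ex]
    intro r hr
    obtain ⟨s, hs, X, ⟨h1, e, h2, h3⟩, h4⟩ := G.memF_UN.1 h r hr
    refine ⟨s, hs, realN (G.A s i e), ?_⟩
    simp only [forces_and, forces_mem, forces_dSub, cons_zero, cons_one, cons_succ, hb]
    refine ⟨G.realN_mem_BN_of ⟨h1, e, h2, rfl⟩, ?_⟩
    intro ρ r' hr' h5
    exact (subF_realN.2 h3 ρ r' hr' h5).congr_right (h4.symm.mono hr')

end GSys

end Pool.Agent.Lib.MP_a6d962_lc
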