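import Mathlib
import Pool.Agent.Lib.MP_a6d962_lc.Defs

/-!
A caliber condition on `U` bounds the number of ultrafilters Tukey reducible to `U` by the
continuum.
-/

open Cardinal Set

namespace Pool.Agent.Lib.MP_a6d962_lc

/-- A Tukey reduction gives a monotone cofinal map. -/
theorem exists_mono {V U : Ultrafilter ℕ} (h : TukeyLE V U) :
    ∃ φ : Set ℕ → Set ℕ, (∀ X ∈ U, φ X ∈ V) ∧
      (∀ X Y : Set ℕ, X ⊆ Y → φ X ⊆ φ Y) ∧ ∀ Z ∈ V, ∃ X ∈ U, φ X ⊆ Z := by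
  obtain ⟨f, hf⟩ := h
  have h1 : ∀ Z : {X : Set ℕ // X ∈ V}, ∃ X : {X : Set ℕ // X ∈ U},
      ∀ X' : {X : Set ℕ // X ∈ U}, X'.1 ⊆ X.1 → (f X').1 ⊆ Z.1 := by
    intro Z
    by_contra hcon
    push Not at hcon
    obtain ⟨Y, hY, hYZ⟩ := hf {X' | ¬ (f X').1 ⊆ Z.1} (fun X => by
      obtain ⟨X', h1, h2⟩ := hcon X
      exact ⟨X', h2, h1⟩) Z
    exact hY hYZ
  choose g hg using h1
  refine ⟨fun X => ⋂ Z : {X : Set ℕ // X ∈ V}, ⋂ _ : X ⊆ (g Z).1, Z.1, ?_, ?_, ?_⟩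
  · intro X hX
    refine Filter.mem_of_superset (f ⟨X, hX⟩).2 ?_
    intro n hn
    simp only [mem_iInter]
    intro Z hZ
    exact hg Z ⟨X, hX⟩ hZ hn
  · intro X Y hXY n hn
    simp only [mem_iInter] at hn ⊢
    intro Z hZ
    exact hn Z (hXY.trans hZ)
  · intro Z hZ
    refine ⟨(g ⟨Z, hZ⟩).1, (g ⟨Z, hZ⟩).2, ?_⟩
    intro n hn
    simp only [mem_iInter] at hn
    exact hn ⟨Z, hZ⟩ subset_rfl

/-- Two different ultrafilters below `U` are separated at some member of `U`. -/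
theorem exists_sep {U V W : Ultrafilter ℕ} (hVW : V ≠ W) {φ ψ : Set ℕ → Set ℕ}
    (hφm : ∀ X Y : Set ℕ, X ⊆ Y → φ X ⊆ φ Y) (hφc : ∀ Z ∈ V, ∃ X ∈ U, φ X ⊆ Z)
    (hψm : ∀ X Y : Set ℕ, X ⊆ Y → ψ X ⊆ ψ Y) (hψc : ∀ Z ∈ W, ∃ X ∈ U, ψ X ⊆ Z) :
    ∃ X ∈ U, Disjoint (φ X) (ψ X) := by
  have h1 : ∃ Z, Z ∈ V ∧ Z ∉ W := by
    by_contra hcon
    push Not at hcon
    apply hVW
    have : (W : Filter ℕ) ≤ V := fun Z hZ => hcon Z hZ
    exact (Ultrafilter.eq_of_le this).symm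
  obtain ⟨Z, hZV, hZW⟩ := h1
  have hZW' : Zᶜ ∈ W := Ultrafilter.compl_mem_iff_notMem.2 hZW
  obtain ⟨X, hX, hXZ⟩ := hφc Z hZV
  obtain ⟨Y, hY, hYZ⟩ := hψc Zᶜ hZW'
  refine ⟨X ∩ Y, Filter.inter_mem hX hY, ?_⟩
  rw [Set.disjoint_left]
  intro n hn hn'
  exact hYZ (hψm _ _ inter_subset_right hn') (hXZ (hφm _ _ inter_subset_left hn))

/-- The number of sets of sets of naturals of size less than `κ`. -/
theorem card_small (κ : Cardinal.{0}) (hκ : ℵ₀ < κ) (hpow : ∀ l < κ, 2 ^ l ≤ 𝔠) :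
    #{A : Set (Set ℕ) // #A < κ} ≤ 𝔠 := by
  have hκc : κ ≤ 𝔠 := by
    by_contra hcon
    push Not at hcon
    exact absurd (hpow 𝔠 hcon) (not_le.2 (cantor _))
  have hpc : ∀ l < κ, 𝔠 ^ l ≤ 𝔠 := by
    intro l hl
    have : 𝔠 ^ l = 2 ^ (ℵ₀ * l) := by
      rw [← two_power_aleph0, ← power_mul]
    rw [this]
    apply hpow
    exact mul_lt_of_lt hκ.le hκ hl
  have hsub : (univ : Set {A : Set (Set ℕ) // #A < κ}) ⊆
      ⋃ i : κ.ord.ToType, {A | #A.1 ≤ #(Iio i)} := by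
    intro A _
    have hA := A.2
    rw [mem_iUnion]
    have h1 : (#A.1).ord < κ.ord := ord_lt_ord.2 hA
    rw [← Ordinal.type_toType κ.ord] at h1
    refine ⟨Ordinal.enum (α := κ.ord.ToType) (· < ·) ⟨(#A.1).ord, h1⟩, ?_⟩
    rw [mem_ofPred_eq]
    have h2 : Ordinal.typein (α := κ.ord.ToType) (· < ·)
        (Ordinal.enum (α := κ.ord.ToType) (· < ·) ⟨(#A.1).ord, h1⟩) = (#A.1).ord :=
      Ordinal.typein_enum _ h1
    have h3 : #(Iio (Ordinal.enum (α := κ.ord.ToType) (· < ·) ⟨(#A.1).ord, h1⟩)) =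
        (Ordinal.typein (α := κ.ord.ToType) (· < ·)
        (Ordinal.enum (α := κ.ord.ToType) (· < ·) ⟨(#A.1).ord, h1⟩)).card := by
      rfl
    rw [h3, h2, card_ord]
  have hset : #(Set ℕ) = 𝔠 := by
    rw [mk_set, mk_nat, two_power_aleph0]
  have hone : ∀ i : κ.ord.ToType, #{A : {A : Set (Set ℕ) // #A < κ} | #A.1 ≤ #(Iio i)} ≤ 𝔠 := by
    intro i
    have h1 : #{A : {A : Set (Set ℕ) // #A < κ} | #A.1 ≤ #(Iio i)} ≤
        #{A : Set (Set ℕ) // #A ≤ #(Iio i)} := by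
      refine mk_le_of_injective (f := fun A => ⟨A.1.1, A.2⟩) ?_
      rintro ⟨⟨A, hA⟩, hA'⟩ ⟨⟨B, hB⟩, hB'⟩ hAB
      have h : A = B := congrArg Subtype.val hAB
      subst h
      rfl
    refine h1.trans ((mk_bounded_set_le _ _).trans ?_)
    rw [hset, max_eq_left aleph0_le_continuum]
    exact hpc _ (mk_Iio_toType_ord_lt i)
  have h4 := (mk_univ (α := {A : Set (Set ℕ) // #A < κ})).symm.le.trans
    ((mk_le_mk_of_subset hsub).trans (mk_iUnion_le _))
  refine h4.trans ?_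
  have h5 : (⨆ i : κ.ord.ToType, #{A : {A : Set (Set ℕ) // #A < κ} | #A.1 ≤ #(Iio i)}) ≤ 𝔠 :=
    ciSup_le' hone
  calc #κ.ord.ToType * _ ≤ 𝔠 * 𝔠 := by
        refine mul_le_mul' ?_ h5
        rw [mk_ord_toType]
        exact hκc
    _ = 𝔠 := continuum_mul_self

/-- Main bound: with the caliber condition, at most continuum many ultrafilters are below `U`. -/
theorem card_le (U : Ultrafilter ℕ) (κ : Cardinal.{0}) (hκ : ℵ₀ < κ) (hpow : ∀ l < κ, 2 ^ l ≤ 𝔠)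
    (hcal : ∀ (ι : Type) (X : ι → Set ℕ), #ι = κ → (∀ i, X i ∈ U) →
      ∃ I : Set ι, ¬ I.Countable ∧ (⋂ i ∈ I, X i) ∈ U) :
    #{V : Ultrafilter ℕ // TukeyLE V U} ≤ 𝔠 := by
  classical
  have hpc : ∀ l < κ, 𝔠 ^ l ≤ 𝔠 := by
    intro l hl
    have : 𝔠 ^ l = 2 ^ (ℵ₀ * l) := by
      rw [← two_power_aleph0, ← power_mul]
    rw [this]
    apply hpow
    exact mul_lt_of_lt hκ.le hκ hl
  have hset : #(Set ℕ) = 𝔠 := by
    rw [mk_set, mk_nat, two_power_aleph0]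
  by_contra hbig
  push Not at hbig
  set S := {V : Ultrafilter ℕ // TukeyLE V U} with hS
  have hm : ∀ V : S, ∃ φ : Set ℕ → Set ℕ, (∀ X ∈ U, φ X ∈ V.1) ∧
      (∀ X Y : Set ℕ, X ⊆ Y → φ X ⊆ φ Y) ∧ ∀ Z ∈ V.1, ∃ X ∈ U, φ X ⊆ Z :=
    fun V => exists_mono V.2
  choose φ hφU hφm hφc using hm
  -- isolated points
  let Iso : {A : Set (Set ℕ) // #A < κ} → Set S :=
    fun A => {V | ∀ W : S, (∀ X ∈ A.1, φ W X = φ V X) → W = V}
  have hIso : ∀ A, #(Iso A) ≤ 𝔠 := by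
    intro A
    have h1 : #(Iso A) ≤ #(A.1 → Set ℕ) := by
      refine mk_le_of_injective (f := fun V X => φ V.1 X.1) ?_
      intro V W hVW
      refine Subtype.ext (W.2 V.1 ?_)
      intro X hX
      exact congrFun hVW ⟨X, hX⟩
    refine h1.trans ?_
    rw [← power_def, hset]
    exact hpc _ A.2
  have hUn : #(⋃ A, Iso A : Set S) ≤ 𝔠 := by
    refine (mk_iUnion_le _).trans ?_
    calc _ ≤ 𝔠 * 𝔠 := mul_le_mul' (card_small κ hκ hpow) (ciSup_le' hIso)
      _ = 𝔠 := continuum_mul_self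
  have hex : ∃ V : S, V ∉ ⋃ A, Iso A := by
    by_contra hcon
    push Not at hcon
    have : (⋃ A, Iso A : Set S) = Set.univ := eq_univ_of_forall hcon
    rw [this, mk_univ] at hUn
    exact absurd hUn (not_le.2 hbig)
  obtain ⟨V₀, hV₀⟩ := hex
  have hV₁ : ∀ A : Set (Set ℕ), #A < κ → ∃ p : S × Set ℕ, (∀ X ∈ A, φ p.1 X = φ V₀ X) ∧
      p.2 ∈ U ∧ Disjoint (φ p.1 p.2) (φ V₀ p.2) := by
    intro A hA
    have h1 : V₀ ∉ Iso ⟨A, hA⟩ := fun h => hV₀ (mem_iUnion.2 ⟨_, h⟩)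
    have h2 : ¬ ∀ W : S, (∀ X ∈ A, φ W X = φ V₀ X) → W = V₀ := h1
    push Not at h2
    obtain ⟨W, hW, hne⟩ := h2
    obtain ⟨X, hX, hd⟩ := exists_sep (U := U) (V := W.1) (W := V₀.1)
      (fun h => hne (Subtype.ext h)) (hφm W) (hφc W) (hφm V₀) (hφc V₀)
    exact ⟨(W, X), hW, hX, hd⟩
  have hV₂ : ∀ A : Set (Set ℕ), ∃ p : S × Set ℕ, #A < κ → (∀ X ∈ A, φ p.1 X = φ V₀ X) ∧
      p.2 ∈ U ∧ Disjoint (φ p.1 p.2) (φ V₀ p.2) := by
    intro A
    by_cases hA : #A < κ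
    · obtain ⟨p, hp⟩ := hV₁ A hA
      exact ⟨p, fun _ => hp⟩
    · exact ⟨(V₀, ∅), fun h => absurd h hA⟩
  choose step hstep using hV₂
  -- transfinite recursion
  let F : κ.ord.ToType → S × Set ℕ :=
    WellFoundedLT.fix (fun i hist => step {X | ∃ (j : κ.ord.ToType) (h : j < i), (hist j h).2 = X})
  have hF : ∀ i, F i = step {X | ∃ (j : κ.ord.ToType) (_ : j < i), (F j).2 = X} := by
    intro i
    exact WellFoundedLT.fix_eq _ i
  have hcard : ∀ i : κ.ord.ToType, #{X | ∃ (j : κ.ord.ToType) (_ : j < i), (F j).2 = X} < κ := by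
    intro i
    refine lt_of_le_of_lt ?_ (mk_Iio_toType_ord_lt i)
    refine mk_le_of_surjective (f := fun j : Iio i => ⟨(F j.1).2, j.1, j.2, rfl⟩) ?_
    rintro ⟨X, j, hj, rfl⟩
    exact ⟨⟨j, hj⟩, rfl⟩
  have hprop : ∀ i, (∀ j < i, φ (F i).1 (F j).2 = φ V₀ (F j).2) ∧ (F i).2 ∈ U ∧
      Disjoint (φ (F i).1 (F i).2) (φ V₀ (F i).2) := by
    intro i
    have h1 := hstep _ (hcard i)
    rw [← hF i] at h1
    exact ⟨fun j hj => h1.1 _ ⟨j, hj, rfl⟩, h1.2.1, h1.2.2⟩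
  obtain ⟨I, hI, hY⟩ := hcal κ.ord.ToType (fun i => (F i).2) (mk_ord_toType κ)
    (fun i => (hprop i).2.1)
  set Y : Set ℕ := ⋂ i ∈ I, (F i).2 with hYdef
  have hYsub : ∀ i ∈ I, Y ⊆ (F i).2 := fun i hi => biInter_subset_of_mem hi
  have hne : ∀ i : I, (φ (F i.1).1 Y).Nonempty := by
    intro i
    exact Ultrafilter.nonempty_of_mem (hφU _ Y hY)
  choose m hm using hne
  have hlt : ∀ i j : I, i.1 < j.1 → m i ≠ m j := by
    intro i j hij hmm
    have h1 : m i ∈ φ (F i.1).1 (F i.1).2 := hφm _ _ _ (hYsub i.1 i.2) (hm i)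
    have h2 : m i ∈ φ (F j.1).1 (F i.1).2 := by
      rw [hmm]
      exact hφm _ _ _ (hYsub i.1 i.2) (hm j)
    rw [(hprop j.1).1 i.1 hij] at h2
    exact Set.disjoint_left.1 (hprop i.1).2.2 h1 h2
  have hinj : Function.Injective m := by
    intro i j hij
    rcases lt_trichotomy i.1 j.1 with h | h | h
    · exact absurd hij (hlt i j h)
    · exact Subtype.ext h
    · exact absurd hij.symm (hlt j i h)
  exact hI (Set.countable_coe_iff.1 hinj.countable)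

/-- Isomorphic ultrafilters are Tukey equivalent. -/
theorem tukey_map (U : Ultrafilter ℕ) (e : Equiv.Perm ℕ) : TukeyLE (U.map e) U := by
  refine ⟨fun X => ⟨e '' X.1, ?_⟩, ?_⟩
  · rw [Ultrafilter.mem_map, preimage_image_eq _ e.injective]
    exact X.2
  · intro C hC Z
    have hZ : e ⁻¹' Z.1 ∈ U := Z.2
    obtain ⟨Y, hY, hYZ⟩ := hC ⟨_, hZ⟩
    refine ⟨Y, hY, ?_⟩
    rintro _ ⟨n, hn, rfl⟩
    exact hYZ hn

theorem tukey_map' (U : Ultrafilter ℕ) (e : Equiv.Perm ℕ) : TukeyLE U (U.map e) := by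
  have h := tukey_map (U.map e) e.symm
  have h2 : (U.map e).map e.symm = U := by
    rw [Ultrafilter.map_map]
    have : (e.symm ∘ e : ℕ → ℕ) = id := by
      funext n
      simp
    rw [this, Ultrafilter.map_id]
  rwa [h2] at h

/-- The coded initial segments of a branch. -/
def seg (r : ℕ → Bool) (n : ℕ) : ℕ := 2 * Encodable.encode (List.ofFn (fun i : Fin n => r i))

theorem seg_inj {r s : ℕ → Bool} {n m : ℕ} (h : seg r n = seg s m) : n = m ∧ ∀ i < n, r i = s i := by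
  have h1 : List.ofFn (fun i : Fin n => r i) = List.ofFn (fun i : Fin m => s i) := by
    apply Encodable.encode_injective
    unfold seg at h
    omega
  have h2 : n = m := by
    have := congrArg List.length h1
    simpa using this
  subst h2
  refine ⟨rfl, fun i hi => ?_⟩
  have h3 := List.ofFn_injective h1
  exact congrFun h3 ⟨i, hi⟩

/-- Lower bound: the type of a nonprincipal ultrafilter has at least continuum many members. -/
theorem le_card (U : Ultrafilter ℕ) (hU : ∀ n : ℕ, ({n} : Set ℕ) ∉ U) :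
    𝔠 ≤ #{V : Ultrafilter ℕ // TukeyLE V U ∧ TukeyLE U V} := by
  classical
  have hfin : ∀ (V : Ultrafilter ℕ), (∀ n : ℕ, ({n} : Set ℕ) ∉ V) → ∀ s : Set ℕ, s.Finite → s ∉ V := by
    intro V hV s hs hmem
    obtain ⟨n, _, hn⟩ := Ultrafilter.eq_pure_of_finite_mem hs hmem
    apply hV n
    rw [hn]
    exact mem_singleton n
  -- a member of `U` which is infinite and coinfinite
  have hZ : ∃ Z ∈ U, Z.Infinite ∧ Zᶜ.Infinite := by
    have hev : {n : ℕ | Even n}.Infinite := by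
      refine Set.infinite_of_injective_forall_mem (f := fun n : ℕ => 2 * n) ?_ ?_
      · intro a b h
        simpa using h
      · intro n
        exact even_two_mul n
    have hod : {n : ℕ | Even n}ᶜ.Infinite := by
      refine Set.infinite_of_injective_forall_mem (f := fun n : ℕ => 2 * n + 1) ?_ ?_
      · intro a b h
        simpa using h
      · intro n
        rw [mem_compl_iff, mem_ofPred_eq]
        simp
    rcases Ultrafilter.mem_or_compl_mem U {n : ℕ | Even n} with h | h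
    · exact ⟨_, h, hev, hod⟩
    · exact ⟨_, h, hod, by rwa [compl_compl]⟩
  obtain ⟨Z, hZU, hZi, hZc⟩ := hZ
  have hAi : ∀ r : ℕ → Bool, (range (seg r)).Infinite := fun r =>
    Set.infinite_range_of_injective (fun n m h => (seg_inj h).1)
  have hAc : ∀ r : ℕ → Bool, (range (seg r))ᶜ.Infinite := by
    intro r
    refine Set.infinite_of_injective_forall_mem (f := fun n : ℕ => 2 * n + 1) ?_ ?_
    · intro a b h
      simpa using h
    · intro n
      rw [mem_compl_iff]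
      rintro ⟨m, hm⟩
      unfold seg at hm
      omega
  have hperm : ∀ r : ℕ → Bool, ∃ e : Equiv.Perm ℕ, ∀ n, n ∈ Z → e n ∈ range (seg r) := by
    intro r
    have := hZi.to_subtype
    have := (hAi r).to_subtype
    have := hZc.to_subtype
    have := (hAc r).to_subtype
    obtain ⟨e1⟩ := nonempty_equiv_of_countable (α := Z) (β := range (seg r))
    obtain ⟨e2⟩ := nonempty_equiv_of_countable (α := (Zᶜ : Set ℕ)) (β := ((range (seg r))ᶜ : Set ℕ))
    refine ⟨Equiv.subtypeCongr (p := fun n => n ∈ Z) (q := fun n => n ∈ range (seg r)) e1 e2, ?_⟩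
    intro n hn
    have h1 : Equiv.subtypeCongr (p := fun n => n ∈ Z) (q := fun n => n ∈ range (seg r)) e1 e2 n =
        (e1 ⟨n, hn⟩ : ℕ) := by
      unfold Equiv.subtypeCongr
      rw [Equiv.trans_apply, Equiv.trans_apply, Equiv.sumCompl_symm_apply_of_pos hn]
      rfl
    rw [h1]
    exact (e1 ⟨n, hn⟩).2
  choose e he using hperm
  have hmem : ∀ r, range (seg r) ∈ U.map (e r) := by
    intro r
    rw [Ultrafilter.mem_map]
    exact Filter.mem_of_superset hZU (fun n hn => he r n hn)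
  have hnp : ∀ r, ∀ n : ℕ, ({n} : Set ℕ) ∉ U.map (e r) := by
    intro r n h
    rw [Ultrafilter.mem_map] at h
    apply hU ((e r).symm n)
    refine Filter.mem_of_superset h ?_
    intro m hm
    rw [mem_preimage, mem_singleton_iff] at hm
    rw [mem_singleton_iff, ← hm, Equiv.symm_apply_apply]
  have hinj : Function.Injective (fun r : ℕ → Bool =>
      (⟨U.map (e r), tukey_map U (e r), tukey_map' U (e r)⟩ :
        {V : Ultrafilter ℕ // TukeyLE V U ∧ TukeyLE U V})) := by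
    intro r s hrs
    have h1 : U.map (e r) = U.map (e s) := congrArg Subtype.val hrs
    by_contra hne
    obtain ⟨k, hk⟩ := Function.ne_iff.1 hne
    have h2 : range (seg r) ∩ range (seg s) ∈ U.map (e r) := by
      refine Filter.inter_mem (hmem r) ?_
      rw [h1]
      exact hmem s
    refine hfin _ (hnp r) _ ?_ h2
    refine Set.Finite.subset ((Set.finite_Iic k).image (seg r)) ?_
    rintro _ ⟨⟨n, rfl⟩, ⟨m, hm⟩⟩
    refine ⟨n, ?_, rfl⟩
    obtain ⟨h3, h4⟩ := seg_inj hm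
    rw [mem_Iic]
    by_contra hkn
    push Not at hkn
    exact hk (h4 k (by omega)).symm
  have h5 := mk_le_of_injective hinj
  have h6 : #(ℕ → Bool) = 𝔠 := by
    rw [← power_def, mk_nat]
    simp
  rwa [h6] at h5

/-- Both counts. -/
theorem main (U : Ultrafilter ℕ) (hU : ∀ n : ℕ, ({n} : Set ℕ) ∉ U) (κ : Cardinal.{0})
    (hκ : ℵ₀ < κ) (hpow : ∀ l < κ, 2 ^ l ≤ 𝔠)
    (hcal : ∀ (ι : Type) (X : ι → Set ℕ), #ι = κ → (∀ i, X i ∈ U) →
      ∃ I : Set ι, ¬ I.Countable ∧ (⋂ i ∈ I, X i) ∈ U) :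
    #{V : Ultrafilter ℕ // TukeyLE V U} = 𝔠 ∧
      #{V : Ultrafilter ℕ // TukeyLE V U ∧ TukeyLE U V} = 𝔠 := by
  have h1 := card_le U κ hκ hpow hcal
  have h2 := le_card U hU
  have h3 : #{V : Ultrafilter ℕ // TukeyLE V U ∧ TukeyLE U V} ≤
      #{V : Ultrafilter ℕ // TukeyLE V U} := by
    refine mk_le_of_injective (f := fun V => ⟨V.1, V.2.1⟩) ?_
    rintro ⟨V, hV⟩ ⟨W, hW⟩ hVW
    have h : V = W := congrArg Subtype.val hVW
    subst h
    rfl
  exact ⟨le_antisymm h1 (h2.trans h3), le_antisymm (h3.trans h1) h2⟩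

end Pool.Agent.Lib.MP_a6d962_lc
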