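import Pool.Agent.Lib.MP_a6d962_lc.ZFml
import Pool.Agent.Lib.MP_a6d962_lc.GSys

/-!
# Names for sets of natural numbers
-/

namespace Pool.Agent.Lib.MP_a6d962_lc

open Pool.Agent.Lib.Forcing
open Pool.Agent.Lib.MP_40b13d_lc (SubF eqF_of_sub memF_omegaN natN_mem_omegaN natN_inj)

variable {P : Type} [Preorder P]

/-- The canonical name of a set of natural numbers. -/
def realN (X : Set ℕ) : Name P := cn (fun n : ℕ => natN n) (fun n _ => n ∈ X)

theorem memF_realN {X : Set ℕ} {ρ : Name P} {p : P} : MemF ρ (realN X) p ↔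
    ∀ r, r ≤ p → ∃ s, s ≤ r ∧ ∃ n ∈ X, EqF ρ (natN n) s := by
  rw [realN, memF_cn (fun _ _ _ h _ => h)]

theorem natN_mem_realN {X : Set ℕ} {n : ℕ} {p : P} : MemF (natN n) (realN X) p ↔ n ∈ X := by
  constructor
  · intro h
    obtain ⟨s, _, m, hm, h1⟩ := memF_realN.1 h p le_rfl
    rw [natN_inj h1]
    exact hm
  · intro h
    exact memF_realN.2 fun r _ => ⟨r, le_rfl, n, h, EqF.refl _ _⟩

theorem realN_sub (X : Set ℕ) (p : P) : SubF (realN X) omegaN p := by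
  intro ρ r _ h
  rw [memF_omegaN]
  intro q hq
  obtain ⟨s, hs, n, _, h1⟩ := memF_realN.1 h q hq
  exact ⟨s, hs, n, h1⟩

theorem subF_realN {X Y : Set ℕ} {p : P} : SubF (realN X) (realN Y) p ↔ X ⊆ Y := by
  constructor
  · intro h n hn
    exact natN_mem_realN.1 (h _ p le_rfl (natN_mem_realN.2 hn))
  · intro h ρ r _ h1
    rw [memF_realN] at h1 ⊢
    intro q hq
    obtain ⟨s, hs, n, hn, h2⟩ := h1 q hq
    exact ⟨s, hs, n, h hn, h2⟩

theorem eqF_realN {X Y : Set ℕ} {p : P} : EqF (realN X) (realN Y) p ↔ X = Y := by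
  constructor
  · intro h
    apply Set.Subset.antisymm
    · exact subF_realN.1 (fun ρ r hr h1 => h1.congr_right (h.mono hr))
    · exact subF_realN.1 (fun ρ r hr h1 => h1.congr_right (h.symm.mono hr))
  · rintro rfl
    exact EqF.refl _ _

theorem memF_cn_realN {A : Set ℕ → P → Prop} (hA : ∀ i p q, A i p → q ≤ p → A i q) {ρ : Name P}
    {p : P} : MemF ρ (cn (fun X : Set ℕ => realN X) A) p ↔
      ∀ r, r ≤ p → ∃ s, s ≤ r ∧ ∃ X, A X s ∧ EqF ρ (realN X) s :=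
  memF_cn hA

theorem realN_mem_cn {A : Set ℕ → P → Prop} (hA : ∀ i p q, A i p → q ≤ p → A i q)
    {X : Set ℕ} {p : P} : MemF (realN X) (cn (fun X : Set ℕ => realN X) A) p ↔
      ∀ r, r ≤ p → ∃ s, s ≤ r ∧ A X s := by
  rw [memF_cn_realN hA]
  constructor
  · intro h r hr
    obtain ⟨s, hs, Y, h1, h2⟩ := h r hr
    rw [eqF_realN.1 h2]
    exact ⟨s, hs, h1⟩
  · intro h r hr
    obtain ⟨s, hs, h1⟩ := h r hr
    exact ⟨s, hs, X, h1, EqF.refl _ _⟩

/-- In a `σ`-closed forcing every name of a set of natural numbers is decided. -/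
theorem exists_realN (hcl : ∀ f : ℕ → P, (∀ n, f (n + 1) ≤ f n) → ∃ q, ∀ n, q ≤ f n)
    {σ : Name P} {p : P} (hσ : SubF σ omegaN p) : ∃ q, q ≤ p ∧ ∃ X, EqF σ (realN X) q := by
  have hstep : ∀ (n : ℕ) (q : P), ∃ r, r ≤ q ∧
      (MemF (natN n) σ r ∨ ∀ s, s ≤ r → ¬ MemF (natN n) σ s) := by
    intro n q
    by_cases h : ∃ r, r ≤ q ∧ MemF (natN n) σ r
    · obtain ⟨r, hr, h⟩ := h
      exact ⟨r, hr, Or.inl h⟩
    · push Not at h
      exact ⟨q, le_rfl, Or.inr h⟩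
  choose g hg1 hg2 using hstep
  let f : ℕ → P := fun n => Nat.rec p (fun n q => g n q) n
  have hf : ∀ n, f (n + 1) = g n (f n) := fun n => rfl
  obtain ⟨q, hq⟩ := hcl f (fun n => by rw [hf]; exact hg1 n _)
  refine ⟨q, hq 0, {n | MemF (natN n) σ q}, ?_⟩
  apply eqF_of_sub
  · intro ρ r hr h
    rw [memF_realN]
    intro t ht
    obtain ⟨s, hs, n, h1⟩ := memF_omegaN.1 (hσ ρ r (hr.trans (hq 0)) h) t ht
    refine ⟨s, hs, n, ?_, h1⟩
    have hs' : s ≤ q := hs.trans (ht.trans hr)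
    have h2 : MemF (natN n) σ s := (h.mono (hs.trans ht)).congr_left h1
    have h3 : q ≤ g n (f n) := hf n ▸ hq (n + 1)
    rcases hg2 n (f n) with h4 | h4
    · exact h4.mono h3
    · exact absurd h2 (h4 s (hs'.trans h3))
  · intro ρ r hr h
    refine MemF.dense fun t ht => ?_
    obtain ⟨s, hs, n, hn, h1⟩ := memF_realN.1 h t ht
    have hn' : MemF (natN n) σ q := hn
    exact ⟨s, hs, (hn'.mono (hs.trans (ht.trans hr))).congr_left h1.symm⟩

/-- the name of the power set of `ω` -/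
def powN : Name P := cn (fun X : Set ℕ => realN X) (fun _ _ => True)

theorem memF_powN (hcl : ∀ f : ℕ → P, (∀ n, f (n + 1) ≤ f n) → ∃ q, ∀ n, q ≤ f n)
    {σ : Name P} {p : P} : MemF σ powN p ↔ SubF σ omegaN p := by
  rw [powN, memF_cn_realN (fun _ _ _ h _ => h)]
  constructor
  · intro h
    apply SubF.dense
    intro q hq
    obtain ⟨s, hs, X, _, h1⟩ := h q hq
    exact ⟨s, hs, (realN_sub X s).congr_left h1.symm⟩
  · intro h r hr
    obtain ⟨s, hs, X, h1⟩ := exists_realN hcl (h.mono hr)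
    exact ⟨s, hs, X, trivial, h1⟩

end Pool.Agent.Lib.MP_a6d962_lc
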