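import Pool.Agent.Lib.MP_a6d962_lc.TukN

/-!
# The top ultrafilter of the ground model is not Tukey reducible to the generic ultrafilters
-/

set_option linter.unusedSimpArgs false

namespace Pool.Agent.Lib.MP_a6d962_lc

open Pool.Agent.Lib.Forcing
open Pool.Agent.Lib.MP_40b13d_lc (SubF eqF_of_sub memF_omegaN natN_mem_omegaN natN_inj
  forces_all_imp forces_ball' forces_iff' forces_dSub forces_ball_omega discN memF_discN mem_discN
  hasSurj_graphN hasInj_graphN forces_fOmega fOmega)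

variable {P : Type} [Preorder P] {L J : Type} (G : GSys P L J)

/-- Countably many dense open requirements can be met below a condition. -/
theorem meet (hcl : ∀ f : ℕ → P, (∀ n, f (n + 1) ≤ f n) → ∃ q, ∀ n, q ≤ f n) {α : Type}
    {S : Set α} (hS : S.Countable) (T : α → P → Prop)
    (hmono : ∀ t q r, T t q → r ≤ q → T t r) (p : P)
    (hdense : ∀ t ∈ S, ∀ q, q ≤ p → ∃ r, r ≤ q ∧ T t r) : ∃ r, r ≤ p ∧ ∀ t ∈ S, T t r := by
  rcases S.eq_empty_or_nonempty with rfl | hne
  · exact ⟨p, le_rfl, fun t ht => ht.elim⟩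
  · obtain ⟨g, hg⟩ := hS.exists_eq_range hne
    have h1 : ∀ (n : ℕ) (q : {q : P // q ≤ p}), ∃ r : {q : P // q ≤ p}, r.1 ≤ q.1 ∧ T (g n) r.1 := by
      intro n q
      obtain ⟨r, hr, h⟩ := hdense (g n) (hg ▸ Set.mem_range_self n) q.1 q.2
      exact ⟨⟨r, hr.trans q.2⟩, hr, h⟩
    choose s hs1 hs2 using h1
    let f : ℕ → {q : P // q ≤ p} := fun n => Nat.rec ⟨p, le_rfl⟩ (fun n q => s n q) n
    have hf : ∀ n, f (n + 1) = s n (f n) := fun n => rfl
    obtain ⟨r, hr⟩ := hcl (fun n => (f n).1) (fun n => by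
      show (f (n + 1)).1 ≤ (f n).1
      rw [hf]; exact hs1 n _)
    refine ⟨r, hr 0, fun t ht => ?_⟩
    rw [hg] at ht
    obtain ⟨n, rfl⟩ := ht
    have h2 := hr (n + 1)
    rw [hf] at h2
    exact hmono _ _ _ (hs2 n (f n)) h2

namespace GSys

variable (i : J) (f : Name P) (X : Set ℕ → Set ℕ)

/-- `f` maps all members of the ultrafilter `i` contained in `Y` to subsets of `X α`. -/
def Conv (α : Set ℕ) (Y : Set ℕ) (s : P) : Prop :=
  ∀ ξ η t, t ≤ s → MemF ξ (G.UN i) t → SubF ξ (realN Y) t → MemF (opN ξ η) f t →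
    SubF η (realN (X α)) t

theorem Conv.mono {α Y : Set ℕ} {s t : P} (h : G.Conv i f X α Y s) (ht : t ≤ s) :
    G.Conv i f X α Y t := fun ξ η r hr => h ξ η r (hr.trans ht)

theorem Conv.anti {α Y Z : Set ℕ} {s : P} (h : G.Conv i f X α Y s) (hZ : Z ⊆ Y) :
    G.Conv i f X α Z s := fun ξ η r hr h1 h2 =>
  h ξ η r hr h1 fun ρ t ht h3 => subF_realN.2 hZ ρ t ht (h2 ρ t ht h3)

/-- `e` is the first index of a set of the base with this property. -/
def Del (α : Set ℕ) (e : L) (s : P) : Prop :=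
  i ∈ G.I s ∧ e ∈ G.D s ∧ G.Conv i f X α (G.A s i e) s ∧
    ∀ e', WellOrderingRel e' e → ∀ t, t ≤ s → ¬ (e' ∈ G.D t ∧ G.Conv i f X α (G.A t i e') t)

theorem del_mono {α : Set ℕ} {e : L} {s t : P} (h : G.Del i f X α e s) (ht : t ≤ s) :
    G.Del i f X α e t := by
  obtain ⟨h1, h2, h3, h4⟩ := h
  refine ⟨G.I_mono ht h1, G.D_mono ht h2, ?_, fun e' he' r hr => h4 e' he' r (hr.trans ht)⟩
  rw [G.A_eq ht i h1 e h2]
  exact h3.mono _ _ _ _ ht

theorem del_unique {α : Set ℕ} {e e' : L} {s : P} (h : G.Del i f X α e s)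
    (h' : G.Del i f X α e' s) : e = e' := by
  rcases trichotomous_of (WellOrderingRel : L → L → Prop) e e' with h1 | h1 | h1
  · exact (h'.2.2.2 e h1 s le_rfl ⟨h.2.1, h.2.2.1⟩).elim
  · exact h1
  · exact (h.2.2.2 e' h1 s le_rfl ⟨h'.2.1, h'.2.2.1⟩).elim

theorem exists_del {α : Set ℕ} {e : L} {s : P} (h1 : i ∈ G.I s) (h2 : e ∈ G.D s)
    (h3 : G.Conv i f X α (G.A s i e) s) : ∃ t, t ≤ s ∧ ∃ e', G.Del i f X α e' t := by
  let C : Set L := {e' | ∃ t, t ≤ s ∧ e' ∈ G.D t ∧ G.Conv i f X α (G.A t i e') t}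
  obtain ⟨e', ⟨t, ht, h4, h5⟩, hmin⟩ :=
    (IsWellFounded.wf (r := (WellOrderingRel : L → L → Prop))).has_min C ⟨e, s, le_rfl, h2, h3⟩
  refine ⟨t, ht, e', G.I_mono ht h1, h4, h5, ?_⟩
  rintro e'' he r hr ⟨h6, h7⟩
  exact hmin e'' ⟨r, hr.trans ht, h6, h7⟩ he

variable {i f X} {v : ℕ → Name P} {p : P}

theorem not_forces_tukey {V : Ultrafilter ℕ} (hX : ∀ α, X α ∈ V)
    (hTop : ∀ S : Set (Set ℕ), S.Infinite → ∀ Y ∈ V, ¬ ∀ α ∈ S, Y ⊆ X α) {a b : ℕ}
    (ha : v a = famN (fun (X : Set ℕ) (_ : P) => X ∈ V)) (hb : v b = G.UN i) :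
    Forces (.fneg (fTukey a b)) v p := by
  classical
  have hVm : ∀ (X : Set ℕ) (p q : P), X ∈ V → q ≤ p → X ∈ V := fun _ _ _ h _ => h
  rw [forces_neg]
  intro q _ h
  unfold fTukey at h
  rw [forces_ex] at h
  obtain ⟨q1, _, f, h1⟩ := h q le_rfl
  rw [forces_and] at h1
  obtain ⟨hfun, hconv⟩ := h1
  -- (1)
  have key1 : ∀ (α : Set ℕ) (r : P), r ≤ q1 → ∃ s, s ≤ r ∧ i ∈ G.I s ∧ ∃ e ∈ G.D s,
      G.Conv i f X α (G.A s i e) s := by
    intro α r hr
    rw [forces_all_imp] at hconv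
    have h2 := hconv (realN (X α)) r hr (by
      rw [forces_mem]
      simp only [cons_zero, cons_succ, ha]
      exact (realN_mem_cn hVm).2 fun r' _ => ⟨r', le_rfl, hX α⟩)
    rw [forces_ex] at h2
    obtain ⟨r1, hr1, ξ0, h3⟩ := h2 r le_rfl
    rw [forces_and] at h3
    obtain ⟨h4, h5⟩ := h3
    have h4' : MemF ξ0 (G.UN i) r1 := by
      rw [forces_mem] at h4
      simp only [cons_zero, cons_succ, hb] at h4
      exact h4
    obtain ⟨s, hs, Y, ⟨h6, e, h7, h8⟩, h9⟩ := G.memF_UN.1 h4' r1 le_rfl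
    refine ⟨s, hs.trans hr1, h6, e, h7, ?_⟩
    intro ξ η t ht h10 h11 h12
    have h13 : SubF ξ ξ0 t := fun ρ t' ht' h14 =>
      (subF_realN.2 h8 ρ t' ht' (h11 ρ t' ht' h14)).congr_right (h9.symm.mono (ht'.trans ht))
    rw [forces_all] at h5
    have h14 := h5 ξ
    rw [forces_all_imp] at h14
    have h15 := h14 η t (ht.trans hs) (by
      rw [forces_mem]
      simp only [cons_zero, cons_one, cons_succ, hb]
      exact h10)
    rw [forces_imp] at h15
    have h16 := h15 t le_rfl (by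
      rw [forces_dSub]
      exact h13)
    rw [forces_imp] at h16
    have h17 := h16 t le_rfl (by
      rw [forces_dApp]
      exact h12)
    rw [forces_dSub] at h17
    exact h17
  -- (2)
  have key2 : ∀ (s : P) (e : L) (S : Set (Set ℕ)), s ≤ q1 → i ∈ G.I s → e ∈ G.D s →
      (∀ α ∈ S, G.Conv i f X α (G.A s i e) s) → S.Finite := by
    intro s e S hs hi he hS
    by_contra hinf
    have hinf' : S.Infinite := hinf
    unfold dFun at hfun
    rw [forces_and] at hfun
    have h2 := hfun.2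
    rw [forces_ball'] at h2
    have hξ : MemF (realN (G.A s i e)) (G.UN i) s := G.realN_mem_UN_of ⟨hi, e, he, subset_rfl⟩
    have h3 := h2 (realN (G.A s i e)) s hs (by
      simp only [cons_succ, hb]
      exact hξ)
    rw [forces_bex] at h3
    obtain ⟨t, ht, k, h4, h5⟩ := h3 s le_rfl
    rw [forces_and] at h5
    have h6 := h5.1
    rw [forces_dApp] at h6
    simp only [cons_zero, cons_one, cons_succ] at h6 h4
    set τ := ((cons (realN (G.A s i e)) (cons f v)) (a + 1 + 1)).nm k with hτ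
    have h7 : MemF τ (famN (fun (X : Set ℕ) (_ : P) => X ∈ V)) t := by
      have h8 : MemF τ ((cons (realN (G.A s i e)) (cons f v)) (a + 1 + 1)) t := memF_of_idx k h4
      have e1 : (cons (realN (G.A s i e)) (cons f v)) (a + 1 + 1) =
          famN (fun (X : Set ℕ) (_ : P) => X ∈ V) := by
        simp only [cons_succ, ha]
      rw [e1] at h8
      exact h8
    obtain ⟨t', ht', Y, hY, h9⟩ := (memF_cn_realN hVm).1 h7 t le_rfl
    refine hTop S hinf' Y hY fun α hα => ?_
    have h10 := hS α hα (realN (G.A s i e)) τ t' (ht'.trans ht) (hξ.mono (ht'.trans ht))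
      (fun ρ r _ h => h) (h6.mono ht')
    rw [← subF_realN (p := t')]
    intro ρ r hr h11
    exact h10 ρ r hr (h11.congr_right (h9.symm.mono hr))
  obtain ⟨q2, hq2, hi2⟩ := G.dens_I q1 i
  by_cases hbig : ∀ C : Set L, C.Countable → ∀ t, t ≤ q2 → ∃ s, s ≤ t ∧ ∃ e, e ∉ C ∧
      ∃ α, G.Del i f X α e s
  · obtain ⟨t, ht, b', d, hinj, hd, h2⟩ := G.fusion q2 i hi2 (fun s e => ∃ α, G.Del i f X α e s)
      (fun q r e h hr => by
        obtain ⟨α, h⟩ := h
        exact ⟨α, G.del_mono i f X h hr⟩)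
      (fun q e h => by
        obtain ⟨α, h⟩ := h
        exact h.2.1) hbig
    have hit : i ∈ G.I t := G.I_mono ht hi2
    choose α hα using fun n => (h2 n).1
    have hαinj : Function.Injective α := by
      intro n m hnm
      apply hinj
      refine G.del_unique i f X (hα n) ?_
      rw [hnm]
      exact hα m
    have h3 := key2 t d (Set.range α) (ht.trans hq2) hit hd (by
      rintro _ ⟨n, rfl⟩
      exact (hα n).2.2.1.anti _ _ _ _ (h2 n).2)
    exact Set.infinite_range_of_injective hαinj h3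
  · push Not at hbig
    obtain ⟨C, hC, r, hr, h2⟩ := hbig
    have hrq : r ≤ q1 := hr.trans hq2
    let Dec : L → P → Prop := fun e s => ∀ α t, t ≤ s → G.Del i f X α e t → G.Del i f X α e s
    have hDec : ∀ e ∈ C, ∀ s, s ≤ r → ∃ s', s' ≤ s ∧ Dec e s' := by
      intro e _ s hs
      by_contra hcon
      push Not at hcon
      have h3 : ∀ s' : {x : P // x ≤ s}, ∃ (t : {x : P // x ≤ s}) (α : Set ℕ), t.1 ≤ s'.1 ∧
          G.Del i f X α e t.1 ∧ ¬ G.Del i f X α e s'.1 := by
        intro s'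
        have h4 := hcon s'.1 s'.2
        have h5 : ¬ ∀ α t, t ≤ s'.1 → G.Del i f X α e t → G.Del i f X α e s'.1 := h4
        push Not at h5
        obtain ⟨α, t, ht, h6, h7⟩ := h5
        exact ⟨⟨t, ht.trans s'.2⟩, α, ht, h6, h7⟩
      choose g α hg1 hg2 hg3 using h3
      let u : ℕ → {x : P // x ≤ s} := fun n => Nat.rec ⟨s, le_rfl⟩ (fun _ x => g x) n
      have hu : ∀ n, u (n + 1) = g (u n) := fun n => rfl
      have hus : ∀ n, (u (n + 1)).1 ≤ (u n).1 := fun n => by rw [hu]; exact hg1 _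
      have huanti : ∀ n m, n ≤ m → (u m).1 ≤ (u n).1 := fun n m h =>
        antitone_nat_of_succ_le (f := fun n => (u n).1) hus h
      obtain ⟨w, hw⟩ := G.closed (fun n => (u n).1) hus
      have hdel : ∀ n, G.Del i f X (α (u n)) e (u (n + 1)).1 := fun n => by
        rw [hu]; exact hg2 _
      have hlt : ∀ n m, n < m → α (u n) ≠ α (u m) := by
        intro n m hnm h4
        apply hg3 (u m)
        rw [← h4]
        exact G.del_mono i f X (hdel n) (huanti (n + 1) m hnm)
      have hinj : Function.Injective fun n => α (u n) := by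
        intro n m hnm
        rcases lt_trichotomy n m with h4 | h4 | h4
        · exact absurd hnm (hlt n m h4)
        · exact h4
        · exact absurd hnm.symm (hlt m n h4)
      have hdw : ∀ n, G.Del i f X (α (u n)) e w := fun n =>
        G.del_mono i f X (hdel n) (hw (n + 1))
      have h5 := key2 w e (Set.range fun n => α (u n)) ((hw 0).trans (hs.trans hrq))
        (hdw 0).1 (hdw 0).2.1 (by
          rintro _ ⟨n, rfl⟩
          exact (hdw n).2.2.1)
      exact Set.infinite_range_of_injective hinj h5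
    obtain ⟨s, hs, h3⟩ := meet G.closed hC Dec (by
      intro e q q' h hq' α t ht h4
      exact G.del_mono i f X (h α t (ht.trans hq') h4) hq') r hDec
    have hcount : (⋃ e ∈ C, {α | G.Del i f X α e s}).Countable := by
      refine hC.biUnion fun e _ => ?_
      by_cases hne : {α | G.Del i f X α e s}.Nonempty
      · obtain ⟨α0, h4⟩ := hne
        have h4' : G.Del i f X α0 e s := h4
        exact (key2 s e _ (hs.trans hrq) h4'.1 h4'.2.1 fun α hα => hα.2.2.1).countable
      · rw [Set.not_nonempty_iff_eq_empty.1 hne]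
        exact Set.countable_empty
    have hex : ∃ α, α ∉ ⋃ e ∈ C, {α | G.Del i f X α e s} := by
      by_contra hcon
      push Not at hcon
      have h4 : (⋃ e ∈ C, {α | G.Del i f X α e s}) = Set.univ := Set.eq_univ_of_forall hcon
      rw [h4] at hcount
      have h5 : Countable (Set ℕ) := Set.countable_univ_iff.1 hcount
      have h6 : Cardinal.mk (Set ℕ) ≤ Cardinal.aleph0 := Cardinal.mk_le_aleph0
      rw [Cardinal.mk_set, Cardinal.mk_nat] at h6
      exact absurd h6 (not_le.2 (Cardinal.cantor _))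
    obtain ⟨α, hα⟩ := hex
    obtain ⟨s1, hs1, h4, e, h5, h6⟩ := key1 α s (hs.trans hrq)
    obtain ⟨t, ht, e', h7⟩ := G.exists_del i f X h4 h5 h6
    have h8 : e' ∈ C := by
      by_contra h9
      exact h2 t (ht.trans (hs1.trans hs)) e' h9 α h7
    exact hα (Set.mem_biUnion h8 (h3 e' h8 α t (ht.trans hs1) h7))

/-- The negation of Q1 is forced. -/
theorem forces_notQ1 (G : GSys P L J) {V : Ultrafilter ℕ} {X : Set ℕ → Set ℕ}
    (hX : ∀ α, X α ∈ V) (hTop : ∀ S : Set (Set ℕ), S.Infinite → ∀ Y ∈ V, ¬ ∀ α ∈ S, Y ⊆ X α)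
    (i : J) (v : ℕ → Name P) (p : P) : Forces fNotQ1 v p := by
  have hVn : ∀ n : ℕ, ({n} : Set ℕ) ∉ V := by
    intro n hn
    refine hTop Set.univ ?_ {n} hn ?_
    · have : Infinite (Set ℕ) := Infinite.of_injective (fun n : ℕ => ({n} : Set ℕ))
        Set.singleton_injective
      exact Set.infinite_univ
    · intro α _ m hm
      rw [Set.mem_singleton_iff] at hm
      subst hm
      by_contra h
      have h1 : ({m} : Set ℕ) ∩ X α ∈ V := Filter.inter_mem hn (hX α)
      rw [Set.singleton_inter_eq_empty.2 h] at h1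
      exact V.empty_notMem h1
  unfold fNotQ1
  refine forces_ex_of omegaN ?_
  refine forces_ex_of powN ?_
  refine forces_ex_of (G.UN i) ?_
  refine forces_ex_of (famN (fun (X : Set ℕ) (_ : P) => X ∈ V)) ?_
  refine forces_ex_of G.WN ?_
  simp only [forces_and]
  refine ⟨?_, ?_, G.forces_ultra rfl rfl, (isUlt_ground V hVn).forces G.closed rfl rfl,
    G.not_forces_tukey hX hTop rfl rfl, ?_, G.not_forces_inj rfl rfl⟩
  · rw [forces_fOmega]
    exact EqF.refl _ _
  · unfold fPower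
    rw [forces_all]
    intro τ
    rw [forces_iff']
    intro q _
    rw [forces_dSub]
    exact memF_powN G.closed
  · rw [forces_all_imp]
    intro τ q _ h
    apply Forces.dense
    intro r hr
    have h' : MemF τ (discN G.UN) q := h
    obtain ⟨s, hs, j, h1⟩ := memF_discN.1 h' r hr
    refine ⟨s, hs, ?_⟩
    refine Forces.congr_cons h1.symm ?_
    rw [forces_and, forces_and]
    exact ⟨G.forces_ultra rfl rfl, G.forces_tukey rfl rfl, G.forces_tukey rfl rfl⟩

end GSys

/-- There is a countable model of ZFC in which the negation of Q1 holds. -/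
theorem exists_model' (G : GSys P L J) {V : Ultrafilter ℕ} {X : Set ℕ → Set ℕ}
    (hX : ∀ α, X α ∈ V) (hTop : ∀ S : Set (Set ℕ), S.Infinite → ∀ Y ∈ V, ¬ ∀ α ∈ S, Y ⊆ X α)
    (i : J) (p : P) :
    ∃ (M : Type) (E : M → M → Prop), Countable M ∧ IsZFC M E ∧ NotQ1 E := by
  obtain ⟨U, _⟩ := exists_genUlt p
  refine exists_countable' (E := ModE U) (U.cl omegaN) (mod_isZFC U) ?_
  rw [← sat_fNotQ1 (v := fun i => U.cl ((fun _ => omegaN) i)), los]
  exact GenUlt.ev_true fun q => G.forces_notQ1 hX hTop i _ q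

end Pool.Agent.Lib.MP_a6d962_lc
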