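import Mathlib

/-!
# An ultrafilter of the top Tukey type (Isbell)

`exists_top`: an ultrafilter `V` on `ℕ` with members `X x`, `x : ℕ → Bool`, such that no member of `V` is contained in infinitely
many of them.
-/

namespace Pool.Agent.Lib.MP_a6d962_lc

open Set Filter

namespace TopU

/-- The initial segment of length `k`. -/
def ini (x : ℕ → Bool) (k : ℕ) : List Bool := (List.range k).map x

theorem length_ini (x : ℕ → Bool) (k : ℕ) : (ini x k).length = k := by simp [ini]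

theorem ini_ne {x y : ℕ → Bool} (h : x ≠ y) : ∀ᶠ N in atTop, ini x N ≠ ini y N := by
  obtain ⟨m, hm⟩ := Function.ne_iff.1 h
  filter_upwards [eventually_gt_atTop m] with N hN heq
  apply hm
  have h1 : (ini x N)[m]'(by rw [length_ini]; exact hN) = (ini y N)[m]'(by rw [length_ini]; exact hN) := by
    congr 1
  simpa [ini] using h1

/-- The independent family. -/
def X (x : ℕ → Bool) : Set ℕ :=
  {n | ∃ l : List (List Bool), Encodable.decode n = some l ∧ ∃ k, ini x k ∈ l}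

theorem indep {F Y : Set (ℕ → Bool)} (hF : F.Finite) (hY : Y.Finite) (hFY : ∀ x ∈ F, x ∉ Y) :
    ∃ n, (∀ x ∈ F, n ∈ X x) ∧ ∀ y ∈ Y, n ∉ X y := by
  have h1 : ∀ᶠ N in atTop, ∀ x ∈ F, ∀ y ∈ Y, ini x N ≠ ini y N :=
    (eventually_all_finite hF).2 fun x hx => (eventually_all_finite hY).2 fun y hy =>
      ini_ne (by rintro rfl; exact hFY x hx hy)
  obtain ⟨N, hN⟩ := h1.exists
  refine ⟨Encodable.encode (hF.toFinset.toList.map (fun x => ini x N)), ?_, ?_⟩
  · intro x hx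
    refine ⟨_, Encodable.encodek _, N, ?_⟩
    rw [List.mem_map]
    exact ⟨x, by simpa using hx, rfl⟩
  · rintro y hy ⟨l, hl, k, hk⟩
    rw [Encodable.encodek, Option.some_inj] at hl
    rw [← hl, List.mem_map] at hk
    obtain ⟨x, hx, hxy⟩ := hk
    have h2 := congrArg List.length hxy
    rw [length_ini, length_ini] at h2
    subst h2
    exact hN x (by simpa using hx) y hy hxy

theorem X_inj : Function.Injective X := by
  intro x y hxy
  by_contra hne
  obtain ⟨n, h1, h2⟩ := indep (F := {x}) (Y := {y}) (finite_singleton x) (finite_singleton y) (by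
    rintro z rfl hz
    exact hne hz)
  apply h2 y rfl
  rw [← hxy]
  exact h1 x rfl

/-- The generating sets. -/
def gen : Set (Set ℕ) := range X ∪ {T | ∃ J : Set (ℕ → Bool), J.Infinite ∧ T = (⋂ x ∈ J, X x)ᶜ}

theorem gen_neBot : (Filter.generate gen).NeBot := by
  rw [Filter.generate_neBot_iff]
  intro t ht hfin
  have hF : (X ⁻¹' t).Finite := hfin.preimage X_inj.injOn
  have h1 : ∀ T : Set ℕ, ∃ y : ℕ → Bool, (∃ J : Set (ℕ → Bool), J.Infinite ∧ T = (⋂ x ∈ J, X x)ᶜ) →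
      y ∉ X ⁻¹' t ∧ (X y)ᶜ ⊆ T := by
    intro T
    by_cases h : ∃ J : Set (ℕ → Bool), J.Infinite ∧ T = (⋂ x ∈ J, X x)ᶜ
    · obtain ⟨J, hJ, hT⟩ := h
      obtain ⟨y, hyJ, hy⟩ := hJ.exists_notMem_finite hF
      refine ⟨y, fun _ => ⟨hy, ?_⟩⟩
      rw [hT, compl_subset_compl]
      exact biInter_subset_of_mem hyJ
    · exact ⟨fun _ => true, fun h' => absurd h' h⟩
  choose y hy using h1
  obtain ⟨n, hn1, hn2⟩ := indep (F := X ⁻¹' t)
    (Y := y '' {T ∈ t | ∃ J : Set (ℕ → Bool), J.Infinite ∧ T = (⋂ x ∈ J, X x)ᶜ}) hF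
    ((hfin.subset (sep_subset _ _)).image y) (by
      rintro x hx ⟨T, ⟨-, hT⟩, rfl⟩
      exact (hy T hT).1 hx)
  refine ⟨n, ?_⟩
  rw [mem_sInter]
  intro T hT
  rcases ht hT with ⟨x, rfl⟩ | hJ
  · exact hn1 x hT
  · exact (hy T hJ).2 (hn2 (y T) ⟨T, ⟨hT, hJ⟩, rfl⟩)

end TopU

open TopU in
theorem exists_top : ∃ (V : Ultrafilter ℕ) (X : (ℕ → Bool) → Set ℕ), (∀ x, X x ∈ V) ∧
    ∀ J : Set (ℕ → Bool), J.Infinite → ∀ B ∈ V, ¬ ∀ x ∈ J, B ⊆ X x := by
  have := gen_neBot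
  have hle := Ultrafilter.of_le (Filter.generate gen)
  refine ⟨Ultrafilter.of (Filter.generate gen), X, fun x => ?_, ?_⟩
  · exact hle (Filter.mem_generate_of_mem (Or.inl ⟨x, rfl⟩))
  · intro J hJ B hB h
    have h1 : (⋂ x ∈ J, X x)ᶜ ∈ Ultrafilter.of (Filter.generate gen) :=
      hle (Filter.mem_generate_of_mem (Or.inr ⟨J, hJ, rfl⟩))
    have h2 : (⋂ x ∈ J, X x) ∈ Ultrafilter.of (Filter.generate gen) :=
      Filter.mem_of_superset hB (subset_iInter₂ h)
    exact Ultrafilter.compl_notMem_iff.2 h2 h1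

end Pool.Agent.Lib.MP_a6d962_lc
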