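import Pool.Agent.Lib.MP_a6d962_lc.BddN

/-!
# Any two of the generic ultrafilters are Tukey equivalent; `(♠)` holds in the models
-/

set_option linter.unusedSimpArgs false

namespace Pool.Agent.Lib.MP_a6d962_lc

open Pool.Agent.Lib.Forcing
open Pool.Agent.Lib.MP_40b13d_lc (SubF eqF_of_sub memF_omegaN natN_mem_omegaN natN_inj
  forces_all_imp forces_ball' forces_iff' forces_dSub forces_ball_omega discN memF_discN mem_discN
  hasSurj_graphN hasInj_graphN forces_fOmega fOmega)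

variable {P : Type} [Preorder P] {L J : Type} (G : GSys P L J)

namespace GSys

/-- The value at `X` of the Tukey function from the ultrafilter `i` to the ultrafilter `j` is `Y`,
witnessed by the first index `e` of a set of the base contained in `X`. -/
def InG (i j : J) (k : Set ℕ × L × Set ℕ) (p : P) : Prop :=
  i ∈ G.I p ∧ j ∈ G.I p ∧ k.2.1 ∈ G.D p ∧ G.A p i k.2.1 ⊆ k.1 ∧ G.A p j k.2.1 = k.2.2 ∧
    ∀ e, WellOrderingRel e k.2.1 → ∀ q, q ≤ p → ¬ (e ∈ G.D q ∧ G.A q i e ⊆ k.1)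

theorem inG_mono {i j : J} (k : Set ℕ × L × Set ℕ) (p q : P) (h : G.InG i j k p) (hq : q ≤ p) :
    G.InG i j k q := by
  obtain ⟨h1, h2, h3, h4, h5, h6⟩ := h
  refine ⟨G.I_mono hq h1, G.I_mono hq h2, G.D_mono hq h3, ?_, ?_, ?_⟩
  · rw [G.A_eq hq i h1 _ h3]; exact h4
  · rw [G.A_eq hq j h2 _ h3]; exact h5
  · intro e he r hr
    exact h6 e he r (hr.trans hq)

theorem inG_unique {i j : J} {X Y Y' : Set ℕ} {e e' : L} {p : P}
    (h : G.InG i j (X, e, Y) p) (h' : G.InG i j (X, e', Y') p) : e = e' ∧ Y = Y' := by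
  obtain ⟨h1, h2, h3, h4, h5, h6⟩ := h
  obtain ⟨h1', h2', h3', h4', h5', h6'⟩ := h'
  have h7 : e = e' := by
    rcases trichotomous_of (WellOrderingRel : L → L → Prop) e e' with h | h | h
    · exact (h6' e h p le_rfl ⟨h3, h4⟩).elim
    · exact h
    · exact (h6 e' h p le_rfl ⟨h3', h4'⟩).elim
  subst h7
  exact ⟨rfl, h5.symm.trans h5'⟩

theorem exists_inG {i j : J} {X : Set ℕ} {p : P} (h : G.InU i X p) :
    ∃ q, q ≤ p ∧ ∃ e Y, G.InG i j (X, e, Y) q := by
  obtain ⟨r, hr, hj⟩ := G.dens_I p j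
  obtain ⟨h1, e, h2, h3⟩ := G.inU_mono _ _ _ h hr
  let C : Set L := {e | ∃ q, q ≤ r ∧ e ∈ G.D q ∧ G.A q i e ⊆ X}
  obtain ⟨e', ⟨q, hq, h4, h5⟩, hmin⟩ :=
    (IsWellFounded.wf (r := (WellOrderingRel : L → L → Prop))).has_min C ⟨e, r, le_rfl, h2, h3⟩
  refine ⟨q, hq.trans hr, e', G.A q j e', G.I_mono hq h1, G.I_mono hq hj, h4, h5, rfl, ?_⟩
  rintro e'' he q' hq' ⟨h6, h7⟩
  exact hmin e'' ⟨q', hq'.trans hq, h6, h7⟩ he

/-- The name of the Tukey function. -/
def gN (i j : J) : Name P :=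
  relN (fun k : Set ℕ × L × Set ℕ => realN k.1) (fun k => realN k.2.2) (G.InG i j)

theorem memF_gN {i j : J} {ρ : Name P} {p : P} : MemF ρ (G.gN i j) p ↔
    ∀ r, r ≤ p → ∃ s, s ≤ r ∧ ∃ X e Y, G.InG i j (X, e, Y) s ∧
      EqF ρ (opN (realN X) (realN Y)) s := by
  rw [gN, relN, memF_cn G.inG_mono]
  constructor
  · intro h r hr
    obtain ⟨s, hs, ⟨X, e, Y⟩, h1, h2⟩ := h r hr
    exact ⟨s, hs, X, e, Y, h1, h2⟩
  · intro h r hr
    obtain ⟨s, hs, X, e, Y, h1, h2⟩ := h r hr
    exact ⟨s, hs, (X, e, Y), h1, h2⟩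

theorem memF_gN_pair {i j : J} {σ τ : Name P} {p : P} : MemF (opN σ τ) (G.gN i j) p ↔
    ∀ r, r ≤ p → ∃ s, s ≤ r ∧ ∃ X e Y, G.InG i j (X, e, Y) s ∧
      EqF σ (realN X) s ∧ EqF τ (realN Y) s := by
  rw [memF_gN]
  simp only [eqF_opN]

variable {v : ℕ → Name P} {p : P}

theorem InG.inU_left {i j : J} {X Y : Set ℕ} {e : L} (h : G.InG i j (X, e, Y) p) :
    G.InU i X p := ⟨h.1, e, h.2.2.1, h.2.2.2.1⟩

theorem InG.inU_right {i j : J} {X Y : Set ℕ} {e : L} (h : G.InG i j (X, e, Y) p) :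
    G.InU j Y p := ⟨h.2.1, e, h.2.2.1, h.2.2.2.2.1.le⟩

theorem forces_fun {f a b : ℕ} {i j : J} (hf : v f = G.gN i j) (ha : v a = G.UN i)
    (hb : v b = G.UN j) : Forces (dFun f a b) v p := by
  unfold dFun
  rw [forces_and]
  constructor
  · rw [forces_ball', hf]
    intro ρ q _ h
    unfold fbex
    rw [← fbex]
    have h0 : Forces (fbex (a + 1) (fbex (b + 2) (dOPair 2 1 0))) (cons ρ v) q := by
      apply Forces.dense
      intro r hr
      obtain ⟨s, hs, X, e, Y, h1, h2⟩ := G.memF_gN.1 h r hr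
      refine ⟨s, hs, ?_⟩
      rw [forces_iff]
      intro U hU
      simp only [sat_bex, sat_dOPair, cons_zero, cons_one, cons_two, cons_succ, ha, hb]
      refine ⟨U.cl (realN X), memF_iff_models.1 (G.realN_mem_UN_of h1.inU_left) U hU,
        U.cl (realN Y), memF_iff_models.1 (G.realN_mem_UN_of h1.inU_right) U hU, ?_⟩
      rw [isOPair_iff]
      exact eqF_iff_models.1 h2 U hU
    exact h0
  · rw [forces_ball', ha]
    intro τ q _ h
    apply Forces.dense
    intro r hr
    obtain ⟨s, hs, X, h1, h2⟩ := G.memF_UN.1 h r hr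
    obtain ⟨t, ht, e, Y, h3⟩ := G.exists_inG (j := j) h1
    refine ⟨t, ht.trans hs, ?_⟩
    have h2' : EqF τ (realN X) t := h2.mono ht
    rw [forces_iff]
    intro U hU
    simp only [sat_bex, sat_and, sat_dApp, sat_ball, sat_imp, sat_eq, cons_zero, cons_one,
      cons_two, cons_succ, hf, hb]
    refine ⟨U.cl (realN Y), memF_iff_models.1 (G.realN_mem_UN_of h3.inU_right) U hU, ?_, ?_⟩
    · rw [isApp_iff]
      refine GenUlt.Ev.imp hU fun q' hq' => ?_
      rw [memF_gN_pair]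
      intro r' hr'
      exact ⟨r', le_rfl, X, e, Y, G.inG_mono _ _ _ h3 (hr'.trans hq'),
        h2'.mono (hr'.trans hq'), EqF.refl _ _⟩
    · intro y hy
      obtain ⟨υ, rfl⟩ := exists_cl y
      intro h4
      rw [isApp_iff] at h4
      rw [cl_eq]
      refine h4.imp2 hU fun q' h5 hq' => ?_
      refine EqF.dense fun r' hr' => ?_
      obtain ⟨s', hs', X', e', Y', h6, h7, h8⟩ := G.memF_gN_pair.1 h5 r' hr'
      have hst : s' ≤ t := hs'.trans (hr'.trans hq')
      have h9 : X' = X := eqF_realN.1 (h7.symm.trans (h2'.mono hst))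
      subst h9
      obtain ⟨_, h10⟩ := G.inG_unique h6 (G.inG_mono _ _ _ h3 hst)
      subst h10
      exact ⟨s', hs', h8⟩

theorem forces_tukey {a b : ℕ} {i j : J} (ha : v a = G.UN j) (hb : v b = G.UN i) :
    Forces (fTukey a b) v p := by
  unfold fTukey
  refine forces_ex_of (G.gN i j) ?_
  rw [forces_and]
  refine ⟨G.forces_fun rfl hb ha, ?_⟩
  rw [forces_all_imp]
  intro τ q _ h
  have h' : MemF τ (G.UN j) q := by
    have e1 : cons τ (cons (G.gN i j) v) (a + 2) = v a := rfl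
    have h0 : MemF τ (cons τ (cons (G.gN i j) v) (a + 2)) q := h
    rw [e1, ha] at h0
    exact h0
  rw [forces_ex]
  intro r hr
  obtain ⟨s, hs, Y, h1, h2⟩ := G.memF_UN.1 h' r hr
  obtain ⟨s', hs', hi⟩ := G.dens_I s i
  obtain ⟨hj, e, he, h3⟩ := G.inU_mono _ _ _ h1 hs'
  refine ⟨s', hs'.trans hs, realN (G.A s' i e), ?_⟩
  rw [forces_and]
  constructor
  · show MemF (realN (G.A s' i e)) (v b) s'
    rw [hb]
    exact G.realN_mem_UN_of ⟨hi, e, he, subset_rfl⟩
  · rw [forces_all]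
    intro ξ
    rw [forces_all_imp]
    intro η q1 hq1 _
    rw [forces_imp]
    intro q2 hq2 h4
    rw [forces_imp]
    intro q3 hq3 h5
    rw [forces_dSub] at h4 ⊢
    rw [forces_dApp] at h5
    simp only [cons_zero, cons_one, cons_two, cons_three, cons_four] at h4 h5 ⊢
    apply SubF.dense
    intro r1 hr1
    obtain ⟨r2, hr2, X', e', Y', h6, h7, h8⟩ := G.memF_gN_pair.1 h5 r1 hr1
    refine ⟨r2, hr2, ?_⟩
    have hr2q2 : r2 ≤ q2 := hr2.trans (hr1.trans hq3)
    have hr2s : r2 ≤ s' := hr2q2.trans (hq2.trans hq1)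
    have h9 : X' ⊆ G.A s' i e := by
      rw [← subF_realN (p := r2)]
      intro ρ r' hr' h10
      exact h4 ρ r' (hr'.trans hr2q2) (h10.congr_right (h7.symm.mono hr'))
    obtain ⟨h11, h12, h13, h14, h15, _⟩ := h6
    have h16 : G.A r2 i e' ⊆ G.A r2 i e := by
      rw [G.A_eq hr2s i hi e he]
      exact h14.trans h9
    have h17 : Y' ⊆ Y := by
      have h18 := G.mono r2 i h11 j h12 e' h13 e (G.D_mono hr2s he) h16
      have h15' : G.A r2 j e' = Y' := h15
      rw [h15', G.A_eq hr2s j hj e he] at h18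
      exact h18.trans h3
    intro ρ r' hr' h18
    exact (subF_realN.2 h17 ρ r' hr' (h18.congr_right (h8.mono hr'))).congr_right
      (h2.symm.mono (hr'.trans (hr2s.trans hs')))

/-- The principle `(♠)` is forced. -/
theorem forces_spade (G : GSys P L J) (v : ℕ → Name P) (p : P) : Forces fSpade v p := by
  unfold fSpade
  refine forces_ex_of omegaN ?_
  refine forces_ex_of powN ?_
  refine forces_ex_of G.WN ?_
  simp only [forces_and]
  refine ⟨?_, ?_, G.not_forces_inj rfl rfl, ?_, ?_⟩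
  · rw [forces_fOmega]
    exact EqF.refl _ _
  · unfold fPower
    rw [forces_all]
    intro τ
    rw [forces_iff']
    intro q _
    rw [forces_dSub]
    exact memF_powN G.closed
  · rw [forces_ball']
    intro τ q _ h
    apply Forces.dense
    intro r hr
    have h' : MemF τ (discN G.UN) q := h
    obtain ⟨s, hs, i, h1⟩ := memF_discN.1 h' r hr
    refine ⟨s, hs, ?_⟩
    refine Forces.congr_cons h1.symm ?_
    unfold fGood
    rw [forces_and]
    refine ⟨G.forces_ultra rfl rfl, ?_⟩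
    refine forces_ex_of (G.BN i) ?_
    rw [forces_and]
    exact ⟨G.forces_base rfl rfl, G.forces_bounding rfl rfl⟩
  · rw [forces_all]
    intro σ
    rw [forces_all_imp]
    intro τ q _ h
    rw [forces_imp]
    intro q' hq' h1
    have h' : MemF σ (discN G.UN) q := h
    have h1' : MemF τ (discN G.UN) q' := h1
    apply Forces.dense
    intro r hr
    obtain ⟨s, hs, i, h2⟩ := memF_discN.1 h' r (hr.trans hq')
    obtain ⟨t, ht, j, h3⟩ := memF_discN.1 h1' s (hs.trans hr)
    refine ⟨t, ht.trans hs, ?_⟩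
    refine Forces.congr_cons h3.symm ?_
    refine Forces.congr (v := cons (G.UN j) (cons (G.UN i) (cons G.WN (cons powN
      (cons omegaN v))))) ?_ (G.forces_tukey rfl rfl)
    intro n
    match n with
    | 0 => exact EqF.refl _ _
    | 1 => exact (h2.symm.mono ht)
    | (n + 2) => exact EqF.refl _ _

end GSys

/-- There is a countable model of ZFC in which `(♠)` holds. -/
theorem exists_model (G : GSys P L J) (p : P) :
    ∃ (M : Type) (E : M → M → Prop), Countable M ∧ IsZFC M E ∧ Spade E := by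
  obtain ⟨U, _⟩ := exists_genUlt p
  refine exists_countable (E := ModE U) (U.cl omegaN) (mod_isZFC U) ?_
  rw [← sat_fSpade (v := fun i => U.cl ((fun _ => omegaN) i)), los]
  exact GenUlt.ev_true fun q => G.forces_spade _ q

end Pool.Agent.Lib.MP_a6d962_lc
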