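import Pool.Agent.Lib.MP_a6d962_lc.RealN

/-!
# Names for ultrafilters
-/

set_option linter.unusedSimpArgs false

namespace Pool.Agent.Lib.MP_a6d962_lc

open Pool.Agent.Lib.Forcing
open Pool.Agent.Lib.MP_40b13d_lc (SubF eqF_of_sub memF_omegaN natN_mem_omegaN natN_inj
  forces_all_imp forces_ball' forces_iff' forces_dSub forces_ball_omega)

variable {P : Type} [Preorder P]

/-- `A X p` (the condition `p` puts the set `X` into the family) describes a nonprincipal
ultrafilter. -/
structure IsUlt (A : Set ℕ → P → Prop) : Prop where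
  mono : ∀ X p q, A X p → q ≤ p → A X q
  up : ∀ X Y p, A X p → X ⊆ Y → A Y p
  inter : ∀ X Y p, A X p → A Y p → ∃ q, q ≤ p ∧ ∃ Z, A Z q ∧ Z ⊆ X ∧ Z ⊆ Y
  inf : ∀ X p, A X p → X.Infinite
  dec : ∀ X p, ∃ q, q ≤ p ∧ (A X q ∨ A Xᶜ q)

/-- the name of the family -/
def famN (A : Set ℕ → P → Prop) : Name P := cn (fun X : Set ℕ => realN X) A

variable {A : Set ℕ → P → Prop} {v : ℕ → Name P} {p : P}

theorem IsUlt.memF (hA : IsUlt A) {ρ : Name P} : MemF ρ (famN A) p ↔
    ∀ r, r ≤ p → ∃ s, s ≤ r ∧ ∃ X, A X s ∧ EqF ρ (realN X) s :=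
  memF_cn_realN hA.mono

theorem IsUlt.realN_mem (hA : IsUlt A) {X : Set ℕ} : MemF (realN X) (famN A) p ↔
    ∀ r, r ≤ p → ∃ s, s ≤ r ∧ A X s :=
  realN_mem_cn hA.mono

theorem IsUlt.realN_mem_of (hA : IsUlt A) {X : Set ℕ} (h : A X p) :
    MemF (realN X) (famN A) p :=
  hA.realN_mem.2 fun r hr => ⟨r, le_rfl, hA.mono _ _ _ h hr⟩

/-- The name of the family is forced to be a nonprincipal ultrafilter. -/
theorem IsUlt.forces (hA : IsUlt A)
    (hcl : ∀ f : ℕ → P, (∀ n, f (n + 1) ≤ f n) → ∃ q, ∀ n, q ≤ f n)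
    {w u : ℕ} (hw : v w = omegaN) (hu : v u = famN A) : Forces (fUltra w u) v p := by
  unfold fUltra
  simp only [forces_and]
  refine ⟨?_, ?_, ?_, ?_, ?_⟩
  · rw [forces_ball']
    intro τ q _ h
    rw [forces_dSub, cons_zero, cons_succ, hw]
    rw [hu] at h
    apply SubF.dense
    intro r hr
    obtain ⟨s, hs, X, _, h1⟩ := hA.memF.1 h r hr
    exact ⟨s, hs, (realN_sub X s).congr_left h1.symm⟩
  · rw [forces_all]
    intro σ
    rw [forces_all_imp]
    intro τ q _ h
    rw [forces_imp]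
    intro q' hq' h1
    rw [forces_imp]
    intro q'' hq'' h2
    simp only [forces_mem, forces_dSub, cons_one, cons_zero, cons_succ, hw, hu] at h h1 h2 ⊢
    rw [hA.memF] at h ⊢
    intro r hr
    obtain ⟨s, hs, X, h3, h4⟩ := h r (hr.trans (hq''.trans hq'))
    obtain ⟨t, ht, Y, h5⟩ := exists_realN hcl (h2.mono (hs.trans hr))
    refine ⟨t, ht.trans hs, Y, ?_, h5⟩
    have h6 : X ⊆ Y := by
      rw [← subF_realN (p := t)]
      have h7 : SubF σ τ t := h1.mono (ht.trans (hs.trans (hr.trans hq'')))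
      intro ρ r' hr' h8
      exact (h7 ρ r' hr' (h8.congr_right (h4.symm.mono (hr'.trans ht)))).congr_right
        (h5.mono hr')
    exact hA.up _ _ _ (hA.mono _ _ _ h3 ht) h6
  · rw [forces_all]
    intro σ
    rw [forces_all_imp]
    intro τ q _ h
    rw [forces_imp]
    intro q' hq' h1
    simp only [forces_mem, cons_one, cons_zero, cons_succ, hw, hu] at h h1
    rw [forces_ex]
    intro r hr
    obtain ⟨s, hs, X, h3, h4⟩ := hA.memF.1 h r (hr.trans hq')
    obtain ⟨t, ht, Y, h5, h6⟩ := hA.memF.1 h1 s (hs.trans hr)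
    obtain ⟨t', ht', Z, h7, h8, h9⟩ := hA.inter _ _ _ (hA.mono _ _ _ h3 ht) h5
    refine ⟨t', ht'.trans (ht.trans hs), realN Z, ?_⟩
    simp only [forces_and, forces_mem, forces_dSub, cons_zero, cons_succ, hu]
    refine ⟨hA.realN_mem_of h7, ?_, ?_⟩
    · intro ρ r' hr' h10
      exact (subF_realN.2 h8 ρ r' hr' h10).congr_right (h4.symm.mono (hr'.trans (ht'.trans ht)))
    · intro ρ r' hr' h10
      exact (subF_realN.2 h9 ρ r' hr' h10).congr_right (h6.symm.mono (hr'.trans ht'))
  · rw [forces_all]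
    intro σ
    rw [forces_all_imp]
    intro τ q _ h
    rw [forces_imp]
    intro q' hq' h1
    rw [forces_imp]
    intro q'' hq'' h2
    simp only [forces_dSub, cons_one, cons_zero, cons_succ, hw] at h h1
    rw [forces_ball_omega (by simp only [cons_succ, hw])] at h2
    -- `σ = X` and `τ = Xᶜ` densely
    have key : ∀ r, r ≤ q'' → ∃ s, s ≤ r ∧ ∃ X, EqF σ (realN X) s ∧ EqF τ (realN Xᶜ) s := by
      intro r hr
      obtain ⟨s, hs, X, h3⟩ := exists_realN hcl (h.mono (hr.trans (hq''.trans hq')))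
      obtain ⟨t, ht, Y, h4⟩ := exists_realN hcl (h1.mono (hs.trans (hr.trans hq'')))
      refine ⟨t, ht.trans hs, X, h3.mono ht, ?_⟩
      have : Y = Xᶜ := by
        ext n
        have h5 := (forces_iff'.1 (h2 n)) t (ht.trans (hs.trans hr))
        simp only [forces_mem, forces_neg, cons_one, cons_zero, cons_two, cons_succ] at h5
        have h6 : MemF (natN n) σ t ↔ n ∈ X := by
          rw [← natN_mem_realN (p := t)]
          exact ⟨fun h => h.congr_right (h3.mono ht), fun h => h.congr_right (h3.mono ht).symm⟩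
        have h7 : (∀ q, q ≤ t → ¬ MemF (natN n) τ q) ↔ n ∉ Y := by
          constructor
          · intro h8 h9
            exact h8 t le_rfl ((natN_mem_realN.2 h9).congr_right h4.symm)
          · intro h8 q hq h9
            exact h8 (natN_mem_realN.1 (h9.congr_right (h4.mono hq)))
        rw [h6, h7] at h5
        rw [Set.mem_compl_iff]
        tauto
      rw [← this]
      exact h4
    rw [forces_iff']
    intro q3 hq3
    simp only [forces_mem, forces_neg, cons_one, cons_zero, cons_succ, hu]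
    constructor
    · intro h3 r hr h4
      obtain ⟨s, hs, X, h5, h6⟩ := key r (hr.trans hq3)
      have h7 := hA.realN_mem.1 ((h3.mono (hs.trans hr)).congr_left h5)
      have h8 := hA.realN_mem.1 ((h4.mono hs).congr_left h6)
      obtain ⟨s1, hs1, h9⟩ := h7 s le_rfl
      obtain ⟨s2, hs2, h10⟩ := h8 s1 hs1
      obtain ⟨s3, hs3, Z, h11, h12, h13⟩ := hA.inter _ _ _ (hA.mono _ _ _ h9 hs2) h10
      obtain ⟨n, hn⟩ := (hA.inf _ _ h11).nonempty
      exact h13 hn (h12 hn)
    · intro h3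
      refine MemF.dense fun r hr => ?_
      obtain ⟨s, hs, X, h5, h6⟩ := key r (hr.trans hq3)
      obtain ⟨t, ht, h7 | h7⟩ := hA.dec X s
      · exact ⟨t, ht.trans hs, (hA.realN_mem_of h7).congr_left (h5.mono ht).symm⟩
      · exact absurd ((hA.realN_mem_of h7).congr_left (h6.mono ht).symm)
          (h3 t (ht.trans (hs.trans hr)))
  · rw [forces_ball_omega hw]
    intro n
    rw [forces_ex]
    intro r hr
    obtain ⟨s, hs, h1 | h1⟩ := hA.dec {n} r
    · exact absurd (Set.finite_singleton n) (hA.inf _ _ h1)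
    · refine ⟨s, hs, realN {n}ᶜ, ?_⟩
      simp only [forces_and, forces_mem, forces_neg, cons_zero, cons_one, cons_succ, hu]
      refine ⟨hA.realN_mem_of h1, fun q hq h2 => ?_⟩
      exact natN_mem_realN.1 h2 rfl

/-- An ultrafilter of the ground model. -/
theorem isUlt_ground (V : Ultrafilter ℕ) (hV : ∀ n : ℕ, ({n} : Set ℕ) ∉ V) :
    IsUlt (fun (X : Set ℕ) (_ : P) => X ∈ V) where
  mono _ _ _ h _ := h
  up _ _ _ h h' := Filter.mem_of_superset h h'
  inter X Y p h h' := ⟨p, le_rfl, X ∩ Y, Filter.inter_mem h h', Set.inter_subset_left,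
    Set.inter_subset_right⟩
  inf X _ h hf := by
    obtain ⟨n, _, hn⟩ := Ultrafilter.eq_pure_of_finite_mem hf h
    apply hV n
    rw [hn]
    exact Set.mem_singleton n
  dec X p := ⟨p, le_rfl, Ultrafilter.mem_or_compl_mem V X⟩

end Pool.Agent.Lib.MP_a6d962_lc
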