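import Pool.Agent.Lib.Forcing.Defs

/-!
# The negation of Q1 inside a structure `(M, E)` for the language of set theory

`ZFC`, `IsSub`, `IsOPair`, `IsApp`, `IsFun`, `HasInj`, `IsPower` come from
`Pool.Agent.Lib.Forcing.Defs`.
-/

namespace Pool.Agent.Lib.MP_a6d962_lc

open Pool.Agent.Lib.Forcing

variable {M : Type*} (E : M → M → Prop)

/-- `v` is inductive: it contains the empty set and is closed under `y ↦ y ∪ {y}`. -/
def IsInductive (v : M) : Prop :=
  (∃ e, IsZero E e ∧ E e v) ∧ ∀ y, E y v → ∃ z, E z v ∧ ∀ u, E u z ↔ E u y ∨ u = y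

/-- `w` is the set of natural numbers. -/
def IsOmega (w : M) : Prop := IsInductive E w ∧ ∀ v, IsInductive E v → IsSub E w v

/-- `u` is a nonprincipal ultrafilter on `w`: a family of subsets of `w`, closed under supersets
and under intersections, containing exactly one of any two complementary subsets of `w`, such that
each element of `w` is outside some member of `u`. -/
def IsUltra (w u : M) : Prop :=
  (∀ x, E x u → IsSub E x w) ∧
  (∀ x y, E x u → IsSub E x y → IsSub E y w → E y u) ∧
  (∀ x y, E x u → E y u → ∃ z, E z u ∧ IsSub E z x ∧ IsSub E z y) ∧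
  (∀ x y, IsSub E x w → IsSub E y w → (∀ n, E n w → (E n x ↔ ¬ E n y)) → (E x u ↔ ¬ E y u)) ∧
  (∀ n, E n w → ∃ x, E x u ∧ ¬ E n x)

/-- The ultrafilter `v` is Tukey reducible to the ultrafilter `u`: there is a function `f` from
`u` to `v` such that for each `y ∈ v` there is `x ∈ u` with `f(x') ⊆ y` for all `x' ∈ u`
with `x' ⊆ x`.  (Equivalently, `f` sends cofinal subsets of `(u, ⊇)` to cofinal subsets
of `(v, ⊇)`.) -/
def TukeyIn (v u : M) : Prop :=
  ∃ f, IsFun E f u v ∧ ∀ y, E y v → ∃ x, E x u ∧
    ∀ x' y', E x' u → IsSub E x' x → IsApp E f x' y' → IsSub E y' y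

/-- The negation of Q1 in `(M, E)`: there are nonprincipal ultrafilters `u` and `v` on `ω` such that
`v` is not Tukey reducible to `u`, and a set `t` of nonprincipal ultrafilters Tukey equivalent to
`u` which has no injection into the power set of `ω` (so the Tukey type of `u` is larger than the
continuum). -/
def NotQ1 : Prop :=
  ∃ w p u v t, IsOmega E w ∧ IsPower E p w ∧ IsUltra E w u ∧ IsUltra E w v ∧ ¬ TukeyIn E v u ∧
    (∀ x, E x t → IsUltra E w x ∧ TukeyIn E x u ∧ TukeyIn E u x) ∧ ¬ HasInj E t p

end Pool.Agent.Lib.MP_a6d962_lc
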