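import Pool.Agent.Lib.MP_a6d962_lc.ZDefs

/-!
# The principle `(♠)` inside a structure `(M, E)` for the language of set theory

It is stronger than `NotQ1`: the members of `W` are pairwise Tukey equivalent and have bases all of
whose uncountable subsets have an infinite subset with a lower bound in the base.
-/

namespace Pool.Agent.Lib.MP_a6d962_lc

open Pool.Agent.Lib.Forcing

variable {M : Type*} (E : M → M → Prop)

/-- `b` is a base of `u`. -/
def IsBase (b u : M) : Prop := IsSub E b u ∧ ∀ x, E x u → ∃ y, E y b ∧ IsSub E y x

/-- `s` is countable: it is contained in the image of `w = ω` under a function. -/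
def IsCtble (w s : M) : Prop := ∃ c, IsSub E s c ∧ HasSurj E w c

/-- Every subset of `b` is countable or has an infinite subset with a lower bound in `b`. -/
def Bounding (w b : M) : Prop :=
  ∀ s, IsSub E s b → IsCtble E w s ∨
    ∃ t, IsSub E t s ∧ HasInj E w t ∧ ∃ x, E x b ∧ ∀ y, E y t → IsSub E x y

/-- The principle `(♠)` in `(M, E)`: there is a set `W` of nonprincipal ultrafilters on `ω` which
has no injection into the power set of `ω`, such that any two members of `W` are Tukey equivalent
and each member of `W` has a base all of whose uncountable subsets have an infinite subset with a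
lower bound in the base. -/
def Spade : Prop :=
  ∃ w p W, IsOmega E w ∧ IsPower E p w ∧ ¬ HasInj E W p ∧
    (∀ u, E u W → IsUltra E w u ∧ ∃ b, IsBase E b u ∧ Bounding E w b) ∧
    ∀ u v, E u W → E v W → TukeyIn E v u

end Pool.Agent.Lib.MP_a6d962_lc
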