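import Pool.Agent.Lib.MP_40b13d_lc.CloN
import Pool.Agent.Lib.MP_a6d962_lc.ZSpade

/-!
# Formulas for the notions of `ZDefs`
-/

set_option linter.unusedSimpArgs false

namespace Pool.Agent.Lib.MP_a6d962_lc

open Pool.Agent.Lib.Forcing
open Pool.Agent.Lib.MP_40b13d_lc (fOmega forces_fOmega)

variable {M : Type*} {E : M → M → Prop} {v : ℕ → M}

theorem sat_fOmega {w : ℕ} : Sat E (fOmega w) v ↔ IsOmega E (v w) :=
  MP_40b13d_lc.sat_fOmega

def fUltra (w u : ℕ) : Fml :=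
  .fand (fball u (dSub 0 (w + 1)))
  (.fand (.fall (.fall (fimp (.fmem 1 (u + 2)) (fimp (dSub 1 0) (fimp (dSub 0 (w + 2))
    (.fmem 0 (u + 2)))))))
  (.fand (.fall (.fall (fimp (.fmem 1 (u + 2)) (fimp (.fmem 0 (u + 2))
    (fex (.fand (.fmem 0 (u + 3)) (.fand (dSub 0 2) (dSub 0 1))))))))
  (.fand (.fall (.fall (fimp (dSub 1 (w + 2)) (fimp (dSub 0 (w + 2))
    (fimp (fball (w + 2) (fiff (.fmem 0 2) (.fneg (.fmem 0 1))))
      (fiff (.fmem 1 (u + 2)) (.fneg (.fmem 0 (u + 2)))))))))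
  (fball w (fex (.fand (.fmem 0 (u + 2)) (.fneg (.fmem 1 0))))))))

@[simp] theorem sat_fUltra {w u : ℕ} : Sat E (fUltra w u) v ↔ IsUltra E (v w) (v u) := by
  simp only [fUltra, IsUltra, sat_and, sat_all, sat_imp, sat_ball, sat_dSub, sat_mem, sat_ex,
    sat_iff, sat_neg, cons_zero, cons_succ, cons_one, cons_two]

def fTukey (v u : ℕ) : Fml :=
  fex (.fand (dFun 0 (u + 1) (v + 1)) (.fall (fimp (.fmem 0 (v + 2))
    (fex (.fand (.fmem 0 (u + 3)) (.fall (.fall (fimp (.fmem 1 (u + 5)) (fimp (dSub 1 2)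
      (fimp (dApp 4 1 0) (dSub 0 3))))))))))) 

@[simp] theorem sat_fTukey {a b : ℕ} : Sat E (fTukey a b) v ↔ TukeyIn E (v a) (v b) := by
  simp only [fTukey, TukeyIn, sat_and, sat_all, sat_imp, sat_ball, sat_dSub, sat_mem, sat_ex,
    sat_dFun, sat_dApp, cons_zero, cons_succ, cons_one, cons_two, cons_three, cons_four]

def fBase (b u : ℕ) : Fml := .fand (dSub b u) (fball u (fex (.fand (.fmem 0 (b + 2)) (dSub 0 1))))

@[simp] theorem sat_fBase {b u : ℕ} : Sat E (fBase b u) v ↔ IsBase E (v b) (v u) := by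
  simp only [fBase, IsBase, sat_and, sat_ball, sat_dSub, sat_mem, sat_ex, cons_zero, cons_succ,
    cons_one]

def fCtble (w s : ℕ) : Fml := fex (.fand (dSub (s + 1) 0) (fSurj (w + 1) 0))

@[simp] theorem sat_fCtble {w s : ℕ} : Sat E (fCtble w s) v ↔ IsCtble E (v w) (v s) := by
  simp only [fCtble, IsCtble, sat_and, sat_dSub, sat_ex, sat_fSurj, cons_zero, cons_succ]

def fBdd (w b s : ℕ) : Fml :=
  fex (.fand (dSub 0 (s + 1)) (.fand (fInj (w + 1) 0) (fex (.fand (.fmem 0 (b + 2))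
    (fball 1 (dSub 1 0))))))

@[simp] theorem sat_fBdd {w b s : ℕ} : Sat E (fBdd w b s) v ↔
    ∃ t, IsSub E t (v s) ∧ HasInj E (v w) t ∧ ∃ x, E x (v b) ∧ ∀ y, E y t → IsSub E x y := by
  simp only [fBdd, sat_and, sat_dSub, sat_ex, sat_fInj, sat_mem, sat_ball, cons_zero, cons_succ,
    cons_one]

def fBounding (w b : ℕ) : Fml :=
  .fall (fimp (dSub 0 (b + 1)) (ffor (fCtble (w + 1) 0) (fBdd (w + 1) (b + 1) 0)))

@[simp] theorem sat_fBounding {w b : ℕ} :
    Sat E (fBounding w b) v ↔ Bounding E (v w) (v b) := by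
  simp only [fBounding, Bounding, sat_all, sat_imp, sat_or, sat_dSub, sat_fCtble, sat_fBdd,
    cons_zero, cons_succ]

def fGood (w u : ℕ) : Fml :=
  .fand (fUltra w u) (fex (.fand (fBase 0 (u + 1)) (fBounding (w + 1) 0)))

@[simp] theorem sat_fGood {w u : ℕ} :
    Sat E (fGood w u) v ↔ IsUltra E (v w) (v u) ∧ ∃ b, IsBase E b (v u) ∧ Bounding E (v w) b := by
  simp only [fGood, sat_and, sat_ex, sat_fUltra, sat_fBase, sat_fBounding, cons_zero, cons_succ]

def fSpade : Fml :=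
  fex (fex (fex (.fand (fOmega 2) (.fand (fPower 1 2) (.fand (.fneg (fInj 0 1))
    (.fand (fball 0 (fGood 3 0)) (.fall (.fall (fimp (.fmem 1 2) (fimp (.fmem 0 2)
      (fTukey 0 1)))))))))))

theorem sat_fSpade : Sat E fSpade v ↔ Spade E := by
  simp only [fSpade, Spade, sat_all, sat_imp, sat_ex, sat_and, sat_neg, sat_fOmega, sat_ball,
    sat_fPower, sat_fInj, sat_fGood, sat_fTukey, sat_mem, cons_zero, cons_succ, cons_one, cons_two,
    cons_three]

def fNotQ1 : Fml :=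
  fex (fex (fex (fex (fex (.fand (fOmega 4) (.fand (fPower 3 4) (.fand (fUltra 4 2)
    (.fand (fUltra 4 1) (.fand (.fneg (fTukey 1 2)) (.fand (.fall (fimp (.fmem 0 1)
      (.fand (fUltra 5 0) (.fand (fTukey 0 3) (fTukey 3 0))))) (.fneg (fInj 0 3))))))))))))

theorem sat_fNotQ1 : Sat E fNotQ1 v ↔ NotQ1 E := by
  simp only [fNotQ1, NotQ1, sat_all, sat_imp, sat_ex, sat_and, sat_neg, sat_fOmega,
    sat_fPower, sat_fInj, sat_fUltra, sat_fTukey, sat_mem, cons_zero, cons_succ, cons_one,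
    cons_two, cons_three, cons_four]

/-- Transfer to a countable elementary substructure. -/
theorem exists_countable' (k : M) (hZ : IsZFC M E) (hC : NotQ1 E) :
    ∃ (N : Type) (F : N → N → Prop), Countable N ∧ IsZFC N F ∧ NotQ1 F := by
  obtain ⟨N, F, k', j, hc, -, hj⟩ := exists_countable_elementary E k
  have hj' : Elem F E j := hj
  refine ⟨N, F, hc, hj'.isZFC k' hZ, ?_⟩
  rw [← sat_fNotQ1 (v := fun _ => k'), hj', sat_fNotQ1]
  exact hC

/-- Transfer to a countable elementary substructure. -/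
theorem exists_countable (k : M) (hZ : IsZFC M E) (hC : Spade E) :
    ∃ (N : Type) (F : N → N → Prop), Countable N ∧ IsZFC N F ∧ Spade F := by
  obtain ⟨N, F, k', j, hc, -, hj⟩ := exists_countable_elementary E k
  have hj' : Elem F E j := hj
  refine ⟨N, F, hc, hj'.isZFC k' hZ, ?_⟩
  rw [← sat_fSpade (v := fun _ => k'), hj', sat_fSpade]
  exact hC

end Pool.Agent.Lib.MP_a6d962_lc
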