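import Pool.Agent.Lib.MP_a6d962_lc.ZfSide
import Pool.Agent.Lib.MP_a6d962_lc.Main

/-!
# The negated form of Q1 read in the universe of sets of Mathlib

`notQ1_iff`: `NotQ1 Ein` holds if and only if the frozen statement `S15174` holds (word for word).
-/

open Set

namespace Pool.Agent.Lib.MP_a6d962_lc

open Pool.Agent.Lib.Forcing

open ZfSide

theorem tukeyIn_of_red {u v : ZFSet.{0}} {U V : Ultrafilter ℕ} (hu : IsUltra Ein om u)
    (hU : ∀ A : Set ℕ, A ∈ U ↔ st A ∈ u) (hV : ∀ A : Set ℕ, A ∈ V ↔ st A ∈ v)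
    (hv : IsUltra Ein om v) (h : Red U V) : TukeyIn Ein v u := by
  obtain ⟨g, hg, hc⟩ := h
  have h1 : ∀ x : {x // x ∈ u}, ∃ A : Set ℕ, st A = x.1 := fun x => exists_st (hu.1 x.1 x.2)
  choose s hs using h1
  have hsU : ∀ x, s x ∈ U := fun x => by
    rw [hU, hs x]
    exact x.2
  let G : {x // x ∈ u} → {y // y ∈ v} := fun x => ⟨st (g (s x)), (hV _).1 (hg _ (hsU x))⟩
  refine ⟨graph G, isFun_graph G, ?_⟩
  intro y hy
  obtain ⟨B, rfl⟩ := exists_st (hv.1 y hy)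
  obtain ⟨A, hA, hAc⟩ := hc B ((hV B).2 hy)
  refine ⟨st A, (hU A).1 hA, ?_⟩
  intro x' y' hx' hsub happ
  obtain ⟨hx2, rfl⟩ := app_graph.1 happ
  have h2 : st (s ⟨x', hx2⟩) = x' := hs ⟨x', hx2⟩
  rw [← h2] at hsub
  exact st_sub_st.2 (hAc _ (hsU _) (st_sub_st.1 hsub))

/-- The set of an ultrafilter. -/
noncomputable def code (U : Ultrafilter ℕ) : ZFSet.{0} :=
  ZFSet.range (fun A : {A : Set ℕ // A ∈ U} => st A.1)

theorem mem_code {U : Ultrafilter ℕ} {x : ZFSet.{0}} : x ∈ code U ↔ ∃ A ∈ U, st A = x := by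
  rw [code, ZFSet.mem_range]
  constructor
  · rintro ⟨⟨A, hA⟩, h⟩
    exact ⟨A, hA, h⟩
  · rintro ⟨A, hA, h⟩
    exact ⟨⟨A, hA⟩, h⟩

theorem st_mem_code {U : Ultrafilter ℕ} (A : Set ℕ) : A ∈ U ↔ st A ∈ code U := by
  rw [mem_code]
  constructor
  · intro h
    exact ⟨A, h, rfl⟩
  · rintro ⟨B, hB, h⟩
    rw [← st_inj h]
    exact hB

theorem isUltra_code {U : Ultrafilter ℕ} (hn : ∀ n : ℕ, ({n} : Set ℕ) ∉ U) :
    IsUltra Ein om (code U) := by
  refine ⟨?_, ?_, ?_, ?_, ?_⟩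
  · intro x hx
    obtain ⟨A, -, rfl⟩ := mem_code.1 hx
    exact st_sub A
  · intro x y hx hxy hy
    obtain ⟨A, hA, rfl⟩ := mem_code.1 hx
    obtain ⟨B, rfl⟩ := exists_st hy
    exact (st_mem_code B).1 (Filter.mem_of_superset hA (st_sub_st.1 hxy))
  · intro x y hx hy
    obtain ⟨A, hA, rfl⟩ := mem_code.1 hx
    obtain ⟨B, hB, rfl⟩ := mem_code.1 hy
    exact ⟨st (A ∩ B), (st_mem_code _).1 (Filter.inter_mem hA hB), st_sub_st.2 inter_subset_left,
      st_sub_st.2 inter_subset_right⟩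
  · intro x y hx hy hxy
    obtain ⟨A, rfl⟩ := exists_st hx
    obtain ⟨B, rfl⟩ := exists_st hy
    have h1 : B = Aᶜ := by
      ext n
      have h2 : nat n ∈ st A ↔ ¬ nat n ∈ st B := hxy (nat n) (nat_mem_om n)
      rw [nat_mem_st, nat_mem_st] at h2
      rw [mem_compl_iff]
      tauto
    show st A ∈ code U ↔ ¬ st B ∈ code U
    rw [← st_mem_code, ← st_mem_code, h1]
    exact Ultrafilter.compl_notMem_iff.symm
  · intro x hx
    obtain ⟨n, rfl⟩ := mem_om.1 hx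
    refine ⟨st {n}ᶜ, (st_mem_code _).1 (Ultrafilter.compl_mem_iff_notMem.2 (hn n)), ?_⟩
    show ¬ nat n ∈ st {n}ᶜ
    rw [nat_mem_st]
    simp

theorem code_inj : Function.Injective code := by
  intro U V h
  apply Ultrafilter.coe_injective
  ext A
  have h1 := st_mem_code (U := U) A
  have h2 := st_mem_code (U := V) A
  rw [h, ← h2] at h1
  exact h1

/-- Each ultrafilter is above the principal ones, so an ultrafilter not below `U` is
nonprincipal. -/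
theorem nonprincipal_of_not_red {U V : Ultrafilter ℕ} (h : ¬ Red U V) :
    ∀ n : ℕ, ({n} : Set ℕ) ∉ V := by
  intro n hn
  refine h ⟨fun _ => {n}, fun _ _ => hn, fun B hB => ⟨univ, Filter.univ_mem, fun _ _ _ => ?_⟩⟩
  rw [singleton_subset_iff]
  by_contra hB'
  have h1 : {n} ∩ B ∈ V := Filter.inter_mem hn hB
  rw [singleton_inter_eq_empty.2 hB'] at h1
  exact Ultrafilter.empty_notMem h1

/-- A nonprincipal ultrafilter is not below a principal one. -/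
theorem nonprincipal_of_red {U W : Ultrafilter ℕ} (hU : ∀ n : ℕ, ({n} : Set ℕ) ∉ U)
    (h : Red W U) : ∀ n : ℕ, ({n} : Set ℕ) ∉ W := by
  intro n hn
  obtain ⟨g, hg, hc⟩ := h
  have h1 : ∀ B ∈ U, g {n} ⊆ B := by
    intro B hB
    obtain ⟨A, hA, hAc⟩ := hc B hB
    refine hAc {n} hn ?_
    rw [singleton_subset_iff]
    by_contra hA'
    have h1 : {n} ∩ A ∈ W := Filter.inter_mem hn hA
    rw [singleton_inter_eq_empty.2 hA'] at h1
    exact Ultrafilter.empty_notMem h1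
  have h2 : g {n} ∈ U := hg _ hn
  obtain ⟨k, hk⟩ := Ultrafilter.nonempty_of_mem h2
  exact h1 {k}ᶜ (Ultrafilter.compl_mem_iff_notMem.2 (hU k)) hk rfl

theorem red_of_tukeyLE {U V : Ultrafilter ℕ} (h : TukeyLE V U) : Red U V := by
  classical
  obtain ⟨f, hf⟩ := h
  refine ⟨fun A => if hA : A ∈ U then (f ⟨A, hA⟩).1 else ∅, fun A hA => ?_, fun B hB => ?_⟩
  · simp only [dif_pos hA]
    exact (f ⟨A, hA⟩).2
  · by_contra hcon
    push Not at hcon
    obtain ⟨Y, hY, hYB⟩ := hf {Y | ¬ (f Y).1 ⊆ B} (fun X => by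
      obtain ⟨A', hA', hAA, hA2⟩ := hcon X.1 X.2
      rw [dif_pos hA'] at hA2
      exact ⟨⟨A', hA'⟩, hA2, hAA⟩) ⟨B, hB⟩
    exact hY hYB

/-- The negated form of Q1, read in the universe of sets of Mathlib, is the frozen statement
`S15174`. -/
theorem notQ1_iff : NotQ1 Ein ↔
    ¬ (∀ U : Ultrafilter ℕ, (∀ n : ℕ, ({n} : Set ℕ) ∉ U) →
      (∃ V : Ultrafilter ℕ, ¬ ∃ g : Set ℕ → Set ℕ, (∀ A ∈ U, g A ∈ V) ∧
          ∀ B ∈ V, ∃ A ∈ U, ∀ A' ∈ U, A' ⊆ A → g A' ⊆ B) →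
      Cardinal.mk {W : Ultrafilter ℕ //
        (∃ g : Set ℕ → Set ℕ, (∀ A ∈ U, g A ∈ W) ∧
          ∀ B ∈ W, ∃ A ∈ U, ∀ A' ∈ U, A' ⊆ A → g A' ⊆ B) ∧
        (∃ g : Set ℕ → Set ℕ, (∀ A ∈ W, g A ∈ U) ∧
          ∀ B ∈ U, ∃ A ∈ W, ∀ A' ∈ W, A' ⊆ A → g A' ⊆ B)} = Cardinal.continuum) := by
  constructor
  · rintro ⟨w, p, u, v, t, hw, hp, hu, hv, hvu, ht, hinj⟩ hall
    obtain rfl := eq_om hw
    obtain ⟨U, hU, hUn⟩ := exists_ultra hu
    obtain ⟨V, hV, hVn⟩ := exists_ultra hv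
    have hred : ¬ Red U V := fun h => hvu (tukeyIn_of_red hu hU hV hv h)
    have hcard := hall U hUn ⟨V, hred⟩
    have hex : ∀ x : {x // x ∈ t}, ∃ X : Ultrafilter ℕ, (∀ A : Set ℕ, A ∈ X ↔ st A ∈ x.1) ∧
        ∀ n : ℕ, ({n} : Set ℕ) ∉ X := fun x => exists_ultra (ht x.1 x.2).1
    choose X hX hXn using hex
    have hXinj : Function.Injective X := by
      intro x x' hxx
      apply Subtype.ext
      ext y
      constructor
      · intro hy
        obtain ⟨A, rfl⟩ := exists_st ((ht x.1 x.2).1.1 y hy)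
        rw [← hX x', ← hxx, hX x]
        exact hy
      · intro hy
        obtain ⟨A, rfl⟩ := exists_st ((ht x'.1 x'.2).1.1 y hy)
        rw [← hX x, hxx, hX x']
        exact hy
    rw [← Cardinal.mk_set_nat] at hcard
    obtain ⟨e⟩ := Cardinal.eq.1 hcard
    have hr1 : ∀ x : {x // x ∈ t}, Red U (X x) := fun x =>
      red_of_tukeyIn hu (ht x.1 x.2).1 hU (hX x) (ht x.1 x.2).2.1
    have hr2 : ∀ x : {x // x ∈ t}, Red (X x) U := fun x =>
      red_of_tukeyIn (ht x.1 x.2).1 hu (hX x) hU (ht x.1 x.2).2.2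
    apply hinj
    refine hasInj_of (fun x => ⟨st (e ⟨X x, hr1 x, hr2 x⟩), (hp _).2 (st_sub _)⟩) ?_
    intro x x' hxx
    have h1 := e.injective (st_inj (congrArg Subtype.val hxx))
    exact hXinj (congrArg Subtype.val h1)
  · intro h
    push Not at h
    obtain ⟨U, hUn, ⟨V, hV⟩, hcard⟩ := h
    have hred : ¬ Red U V := by
      rintro ⟨g, hg, hc⟩
      obtain ⟨B, hB, hB2⟩ := hV g hg
      obtain ⟨A, hA, hA2⟩ := hc B hB
      obtain ⟨A', hA', hAA, hA3⟩ := hB2 A hA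
      exact hA3 (hA2 A' hA' hAA)
    have hu := isUltra_code hUn
    have hv := isUltra_code (nonprincipal_of_not_red hred)
    let T := {W : Ultrafilter ℕ //
        (∃ g : Set ℕ → Set ℕ, (∀ A ∈ U, g A ∈ W) ∧
          ∀ B ∈ W, ∃ A ∈ U, ∀ A' ∈ U, A' ⊆ A → g A' ⊆ B) ∧
        (∃ g : Set ℕ → Set ℕ, (∀ A ∈ W, g A ∈ U) ∧
          ∀ B ∈ U, ∃ A ∈ W, ∀ A' ∈ W, A' ⊆ A → g A' ⊆ B)}
    obtain ⟨t, ht⟩ : ∃ t : ZFSet.{0}, ∀ z, z ∈ t ↔ ∃ W : T, code W.1 = z :=
      ⟨ZFSet.range (fun W : T => code W.1), fun z => ZFSet.mem_range⟩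
    refine ⟨om, ZFSet.powerset om, code U, code V, t, isOmega_om, ?_, hu, hv, ?_, ?_, ?_⟩
    · intro z
      exact ZFSet.mem_powerset
    · intro h1
      exact hred (red_of_tukeyIn hu hv st_mem_code st_mem_code h1)
    · intro x hx
      obtain ⟨⟨W, hW1, hW2⟩, rfl⟩ := (ht x).1 hx
      have hw := isUltra_code (nonprincipal_of_red hUn hW2)
      exact ⟨hw, tukeyIn_of_red hu st_mem_code st_mem_code hw hW1,
        tukeyIn_of_red hw st_mem_code st_mem_code hu hW2⟩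
    · intro hinj
      apply hcard
      apply le_antisymm
      · obtain ⟨f, hf, hfi⟩ := hinj
        obtain ⟨g, hg⟩ := exists_fun hf
        rw [← Cardinal.mk_set_nat]
        have h1 : ∀ W : T, ∃ A : Set ℕ, st A = (g ⟨code W.1, (ht _).2 ⟨W, rfl⟩⟩).1 := fun W =>
          exists_st (fun y hy => (ZFSet.mem_powerset.1 (g ⟨code W.1, (ht _).2 ⟨W, rfl⟩⟩).2) hy)
        choose G hG using h1
        refine Cardinal.mk_le_of_injective (f := G) ?_
        intro W W' hWW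
        apply Subtype.ext
        apply code_inj
        have h2 := hg ⟨code W.1, (ht _).2 ⟨W, rfl⟩⟩
        have h3 := hg ⟨code W'.1, (ht _).2 ⟨W', rfl⟩⟩
        rw [← hG W, hWW] at h2
        rw [← hG W'] at h3
        exact hfi _ _ _ h2 h3
      · refine (le_card U hUn).trans ?_
        refine Cardinal.mk_le_of_injective
          (f := fun W : {W : Ultrafilter ℕ // TukeyLE W U ∧ TukeyLE U W} =>
            (⟨W.1, red_of_tukeyLE W.2.1, red_of_tukeyLE W.2.2⟩ : T)) ?_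
        intro W W' hWW
        have h3 : (⟨W.1, red_of_tukeyLE W.2.1, red_of_tukeyLE W.2.2⟩ : T) =
            (⟨W'.1, red_of_tukeyLE W'.2.1, red_of_tukeyLE W'.2.2⟩ : T) := hWW
        have h4 : W.1 = W'.1 := congrArg (fun x : T => x.1) h3
        exact Subtype.ext h4

end Pool.Agent.Lib.MP_a6d962_lc
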