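import Pool.Agent.Lib.MP_a6d962_lc.ZSpade
import Pool.Agent.Lib.MP_a6d962_lc.TopU

/-!
# The principle `(♠)` in the universe of sets of Mathlib implies the negated form of Q1

`not_q1_of_spade`: `Spade Ein` implies the frozen statement `S15174` word for word.
-/

open Set

namespace Pool.Agent.Lib.MP_a6d962_lc

open Pool.Agent.Lib.Forcing

/-- The membership relation of Mathlib's universe of sets. -/
def Ein (x y : ZFSet.{0}) : Prop := x ∈ y

namespace ZfSide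

/-- The natural numbers as sets. -/
noncomputable def nat : ℕ → ZFSet.{0}
  | 0 => ∅
  | n + 1 => insert (nat n) (nat n)

theorem mem_nat {n : ℕ} {x : ZFSet.{0}} : x ∈ nat n ↔ ∃ k < n, x = nat k := by
  induction n with
  | zero => simp [nat]
  | succ n ih =>
    rw [nat, ZFSet.mem_insert_iff, ih]
    constructor
    · rintro (rfl | ⟨k, hk, rfl⟩)
      · exact ⟨n, Nat.lt_succ_self n, rfl⟩
      · exact ⟨k, Nat.lt_succ_of_lt hk, rfl⟩
    · rintro ⟨k, hk, rfl⟩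
      rcases Nat.lt_succ_iff_lt_or_eq.1 hk with h | rfl
      · exact Or.inr ⟨k, h, rfl⟩
      · exact Or.inl rfl

theorem nat_mem_nat_of_lt {k n : ℕ} (h : k < n) : nat k ∈ nat n := mem_nat.2 ⟨k, h, rfl⟩

theorem nat_inj {k n : ℕ} (h : nat k = nat n) : k = n := by
  rcases lt_trichotomy k n with h1 | h1 | h1
  · have h2 := nat_mem_nat_of_lt h1
    rw [h] at h2
    exact absurd h2 (ZFSet.mem_irrefl _)
  · exact h1
  · have h2 := nat_mem_nat_of_lt h1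
    rw [h] at h2
    exact absurd h2 (ZFSet.mem_irrefl _)

/-- The set of natural numbers. -/
noncomputable def om : ZFSet.{0} := ZFSet.range nat

theorem mem_om {x : ZFSet.{0}} : x ∈ om ↔ ∃ n, nat n = x := ZFSet.mem_range

theorem nat_mem_om (n : ℕ) : nat n ∈ om := mem_om.2 ⟨n, rfl⟩

theorem isOmega_om : IsOmega Ein om := by
  refine ⟨⟨⟨∅, fun z => ZFSet.notMem_empty z, nat_mem_om 0⟩, ?_⟩, ?_⟩
  · intro y hy
    obtain ⟨n, rfl⟩ := mem_om.1 hy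
    refine ⟨nat (n + 1), nat_mem_om _, fun u => ?_⟩
    show u ∈ nat (n + 1) ↔ u ∈ nat n ∨ u = nat n
    rw [nat, ZFSet.mem_insert_iff, or_comm]
  · rintro v ⟨⟨e, he, hev⟩, hv⟩ x hx
    obtain ⟨n, rfl⟩ := mem_om.1 hx
    show nat n ∈ v
    induction n with
    | zero =>
      have : e = ∅ := (ZFSet.eq_empty e).2 he
      rw [nat, ← this]
      exact hev
    | succ n ih =>
      obtain ⟨z, hz, h1⟩ := hv (nat n) (ih (nat_mem_om n))
      have : z = nat (n + 1) := by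
        ext u
        rw [nat, ZFSet.mem_insert_iff, or_comm]
        exact h1 u
      rw [← this]
      exact hz

theorem eq_om {w : ZFSet.{0}} (h : IsOmega Ein w) : w = om := by
  ext x
  constructor
  · intro hx
    exact h.2 om isOmega_om.1 x hx
  · intro hx
    exact isOmega_om.2 w h.1 x hx

/-- The subset of `ω` given by a set of natural numbers. -/
noncomputable def st (A : Set ℕ) : ZFSet.{0} := ZFSet.range (fun n : A => nat n)

theorem mem_st {A : Set ℕ} {x : ZFSet.{0}} : x ∈ st A ↔ ∃ n ∈ A, nat n = x := by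
  rw [st, ZFSet.mem_range]
  constructor
  · rintro ⟨⟨n, hn⟩, h⟩
    exact ⟨n, hn, h⟩
  · rintro ⟨n, hn, h⟩
    exact ⟨⟨n, hn⟩, h⟩

theorem nat_mem_st {A : Set ℕ} {n : ℕ} : nat n ∈ st A ↔ n ∈ A := by
  rw [mem_st]
  constructor
  · rintro ⟨k, hk, h⟩
    rw [← nat_inj h]
    exact hk
  · intro h
    exact ⟨n, h, rfl⟩

theorem st_sub (A : Set ℕ) : IsSub Ein (st A) om := by
  intro x hx
  obtain ⟨n, -, rfl⟩ := mem_st.1 hx
  exact nat_mem_om n

theorem st_sub_st {A B : Set ℕ} : IsSub Ein (st A) (st B) ↔ A ⊆ B := by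
  constructor
  · intro h n hn
    exact nat_mem_st.1 (h (nat n) (nat_mem_st.2 hn))
  · intro h x hx
    obtain ⟨n, hn, rfl⟩ := mem_st.1 hx
    exact nat_mem_st.2 (h hn)

theorem st_inj {A B : Set ℕ} (h : st A = st B) : A = B := by
  ext n
  rw [← nat_mem_st, ← nat_mem_st, h]

theorem exists_st {x : ZFSet.{0}} (hx : IsSub Ein x om) : ∃ A, st A = x := by
  refine ⟨{n | nat n ∈ x}, ?_⟩
  ext y
  rw [mem_st]
  constructor
  · rintro ⟨n, hn, rfl⟩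
    exact hn
  · intro hy
    obtain ⟨n, rfl⟩ := mem_om.1 (hx y hy)
    exact ⟨n, hy, rfl⟩

theorem isUPair_iff {z x y : ZFSet.{0}} : IsUPair Ein z x y ↔ z = {x, y} := by
  constructor
  · intro h
    ext w
    rw [ZFSet.mem_pair]
    exact h w
  · rintro rfl w
    exact ZFSet.mem_pair

theorem isOPair_iff {z x y : ZFSet.{0}} : IsOPair Ein z x y ↔ z = ZFSet.pair x y := by
  constructor
  · rintro ⟨a, b, ha, hb, h⟩
    rw [isUPair_iff] at ha hb h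
    rw [h, ha, hb, ZFSet.pair, ZFSet.pair_eq_singleton]
  · rintro rfl
    refine ⟨{x}, {x, y}, ?_, isUPair_iff.2 rfl, isUPair_iff.2 rfl⟩
    rw [isUPair_iff, ZFSet.pair_eq_singleton]

theorem isApp_iff {f x y : ZFSet.{0}} : IsApp Ein f x y ↔ ZFSet.pair x y ∈ f := by
  constructor
  · rintro ⟨z, hz, h⟩
    rw [isOPair_iff] at h
    rw [← h]
    exact hz
  · intro h
    exact ⟨_, h, isOPair_iff.2 rfl⟩

/-- The graph of a function. -/
noncomputable def graph {a b : ZFSet.{0}} (g : {x // x ∈ a} → {x // x ∈ b}) : ZFSet.{0} :=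
  ZFSet.range (fun x : Shrink.{0} {x // x ∈ a} =>
    ZFSet.pair ((equivShrink _).symm x).1 (g ((equivShrink _).symm x)).1)

theorem mem_graph {a b : ZFSet.{0}} {g : {x // x ∈ a} → {x // x ∈ b}} {z : ZFSet.{0}} :
    z ∈ graph g ↔ ∃ x : {x // x ∈ a}, z = ZFSet.pair x.1 (g x).1 := by
  rw [graph, ZFSet.mem_range]
  constructor
  · rintro ⟨x, rfl⟩
    exact ⟨_, rfl⟩
  · rintro ⟨x, rfl⟩
    exact ⟨equivShrink _ x, by rw [Equiv.symm_apply_apply]⟩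

theorem app_graph {a b : ZFSet.{0}} {g : {x // x ∈ a} → {x // x ∈ b}} {x y : ZFSet.{0}} :
    IsApp Ein (graph g) x y ↔ ∃ hx : x ∈ a, y = (g ⟨x, hx⟩).1 := by
  rw [isApp_iff, mem_graph]
  constructor
  · rintro ⟨⟨u, hu⟩, h⟩
    obtain ⟨rfl, h2⟩ := ZFSet.pair_inj.1 h
    exact ⟨hu, h2⟩
  · rintro ⟨hx, rfl⟩
    exact ⟨⟨x, hx⟩, rfl⟩

theorem isFun_graph {a b : ZFSet.{0}} (g : {x // x ∈ a} → {x // x ∈ b}) :
    IsFun Ein (graph g) a b := by
  constructor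
  · intro z hz
    obtain ⟨x, rfl⟩ := mem_graph.1 hz
    exact ⟨x.1, (g x).1, x.2, (g x).2, isOPair_iff.2 rfl⟩
  · intro x hx
    refine ⟨(g ⟨x, hx⟩).1, ⟨(g ⟨x, hx⟩).2, app_graph.2 ⟨hx, rfl⟩⟩, ?_⟩
    rintro y ⟨_, hy⟩
    obtain ⟨_, rfl⟩ := app_graph.1 hy
    rfl

/-- The function with a given graph. -/
theorem exists_fun {f a b : ZFSet.{0}} (h : IsFun Ein f a b) :
    ∃ g : {x // x ∈ a} → {x // x ∈ b}, ∀ x : {x // x ∈ a}, IsApp Ein f x.1 (g x).1 := by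
  have h1 : ∀ x : {x // x ∈ a}, ∃ y : {y // y ∈ b}, IsApp Ein f x.1 y.1 := by
    intro x
    obtain ⟨y, ⟨hy, hxy⟩, -⟩ := h.2 x.1 x.2
    exact ⟨⟨y, hy⟩, hxy⟩
  choose g hg using h1
  exact ⟨g, hg⟩

theorem hasInj_of {a b : ZFSet.{0}} (g : {x // x ∈ a} → {x // x ∈ b}) (hg : Function.Injective g) :
    HasInj Ein a b := by
  refine ⟨graph g, isFun_graph g, ?_⟩
  intro x x' y hx hx'
  obtain ⟨h1, h2⟩ := app_graph.1 hx
  obtain ⟨h3, h4⟩ := app_graph.1 hx'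
  have := hg (Subtype.ext (h2.symm.trans h4))
  exact congrArg Subtype.val this

/-- An infinite set has infinitely many elements. -/
theorem exists_inj_of_hasInj {t : ZFSet.{0}} (h : HasInj Ein om t) :
    ∃ g : ℕ → ZFSet.{0}, Function.Injective g ∧ ∀ n, g n ∈ t := by
  obtain ⟨f, hf, hinj⟩ := h
  obtain ⟨g, hg⟩ := exists_fun hf
  refine ⟨fun n => (g ⟨nat n, nat_mem_om n⟩).1, fun m n hmn => ?_, fun n => (g _).2⟩
  apply nat_inj
  have h1 := hg ⟨nat m, nat_mem_om m⟩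
  have h2 := hg ⟨nat n, nat_mem_om n⟩
  have hmn' : (g ⟨nat m, nat_mem_om m⟩).1 = (g ⟨nat n, nat_mem_om n⟩).1 := hmn
  rw [hmn'] at h1
  exact hinj _ _ _ h1 h2

/-- The image of `ω`. -/
theorem exists_enum_of_hasSurj {c : ZFSet.{0}} (h : HasSurj Ein om c) :
    ∃ g : ℕ → ZFSet.{0}, ∀ y, y ∈ c → ∃ n, g n = y := by
  obtain ⟨f, hf, hs⟩ := h
  obtain ⟨g, hg⟩ := exists_fun hf
  refine ⟨fun n => (g ⟨nat n, nat_mem_om n⟩).1, fun y hy => ?_⟩
  obtain ⟨x, z, hz, hx⟩ := hs y hy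
  obtain ⟨u, v, hu, hv, h3⟩ := hf.1 z hz
  rw [isOPair_iff] at hx h3
  rw [hx] at h3
  obtain ⟨rfl, h4⟩ := ZFSet.pair_inj.1 h3
  obtain ⟨n, rfl⟩ := mem_om.1 hu
  refine ⟨n, ?_⟩
  obtain ⟨y', -, hy'⟩ := hf.2 (nat n) hu
  have e1 := hy' y ⟨hy, isApp_iff.2 (hx ▸ hz)⟩
  have e2 := hy' (g ⟨nat n, nat_mem_om n⟩).1 ⟨(g _).2, hg ⟨nat n, nat_mem_om n⟩⟩
  rw [e1, ← e2]

/-- The ultrafilter given by a set. -/
theorem exists_ultra {u : ZFSet.{0}} (h : IsUltra Ein om u) :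
    ∃ U : Ultrafilter ℕ, (∀ A : Set ℕ, A ∈ U ↔ st A ∈ u) ∧ ∀ n : ℕ, ({n} : Set ℕ) ∉ U := by
  obtain ⟨h1, h2, h3, h4, h5⟩ := h
  have huniv : st univ ∈ u := by
    obtain ⟨x, hx, -⟩ := h5 (nat 0) (nat_mem_om 0)
    refine h2 x (st univ) hx ?_ (st_sub _)
    intro y hy
    obtain ⟨n, rfl⟩ := mem_om.1 (h1 x hx y hy)
    exact nat_mem_st.2 (mem_univ n)
  let F : Filter ℕ :=
    { sets := {A | st A ∈ u}
      univ_sets := huniv
      sets_of_superset := fun {A B} hA hAB => h2 (st A) (st B) hA (st_sub_st.2 hAB) (st_sub B)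
      inter_sets := fun {A B} hA hB => by
        obtain ⟨z, hz, hzA, hzB⟩ := h3 (st A) (st B) hA hB
        refine h2 z (st (A ∩ B)) hz ?_ (st_sub _)
        intro y hy
        obtain ⟨n, rfl⟩ := mem_om.1 (h1 z hz y hy)
        exact nat_mem_st.2 ⟨nat_mem_st.1 (hzA _ hy), nat_mem_st.1 (hzB _ hy)⟩ }
  have hF : ∀ A : Set ℕ, A ∈ F ↔ st A ∈ u := fun A => Iff.rfl
  have hcompl : ∀ A : Set ℕ, Aᶜ ∉ F ↔ A ∈ F := by
    intro A
    rw [hF, hF]
    have h6 := h4 (st A) (st Aᶜ) (st_sub _) (st_sub _) (by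
      intro x hx
      obtain ⟨n, rfl⟩ := mem_om.1 hx
      show nat n ∈ st A ↔ ¬ nat n ∈ st Aᶜ
      rw [nat_mem_st, nat_mem_st]
      simp)
    exact h6.symm
  refine ⟨Ultrafilter.ofComplNotMemIff F hcompl, fun A => Iff.rfl, ?_⟩
  intro n hn
  obtain ⟨x, hx, hnx⟩ := h5 (nat n) (nat_mem_om n)
  obtain ⟨A, rfl⟩ := exists_st (h1 x hx)
  have hA : A ∈ F := hx
  have hn' : ({n} : Set ℕ) ∈ F := hn
  have h6 : (∅ : Set ℕ) ∈ F := by
    have h7 := F.inter_sets hA hn'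
    have h8 : A ∩ {n} = ∅ := by
      rw [inter_singleton_eq_empty]
      intro h9
      exact hnx (nat_mem_st.2 h9)
    rwa [h8] at h7
  have h10 := (hcompl ∅).2 h6
  rw [compl_empty] at h10
  exact h10 F.univ_sets

end ZfSide

/-- `V` is Tukey reducible to `U`, as in the frozen statement. -/
def Red (U V : Ultrafilter ℕ) : Prop :=
  ∃ g : Set ℕ → Set ℕ, (∀ A ∈ U, g A ∈ V) ∧ ∀ B ∈ V, ∃ A ∈ U, ∀ A' ∈ U, A' ⊆ A → g A' ⊆ B

open ZfSide

theorem red_of_tukeyIn {u v : ZFSet.{0}} {U V : Ultrafilter ℕ} (hu : IsUltra Ein om u)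
    (hv : IsUltra Ein om v) (hU : ∀ A : Set ℕ, A ∈ U ↔ st A ∈ u) (hV : ∀ A : Set ℕ, A ∈ V ↔ st A ∈ v)
    (h : TukeyIn Ein v u) : Red U V := by
  classical
  obtain ⟨f, hf, hc⟩ := h
  obtain ⟨g, hg⟩ := exists_fun hf
  have h1 : ∀ A : Set ℕ, ∃ B : Set ℕ, ∀ hA : A ∈ U, st B = (g ⟨st A, (hU A).1 hA⟩).1 := by
    intro A
    by_cases hA : A ∈ U
    · obtain ⟨B, hB⟩ := exists_st (hv.1 _ (g ⟨st A, (hU A).1 hA⟩).2)
      exact ⟨B, fun _ => hB⟩
    · exact ⟨∅, fun h => absurd h hA⟩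
  choose G hG using h1
  refine ⟨G, fun A hA => ?_, fun B hB => ?_⟩
  · rw [hV, hG A hA]
    exact (g _).2
  · obtain ⟨x, hx, hxc⟩ := hc (st B) ((hV B).1 hB)
    obtain ⟨A, rfl⟩ := exists_st (hu.1 x hx)
    refine ⟨A, (hU A).2 hx, fun A' hA' hAA => ?_⟩
    have h2 := hxc (st A') _ ((hU A').1 hA') (st_sub_st.2 hAA) (hg ⟨st A', (hU A').1 hA'⟩)
    rw [← hG A' hA'] at h2
    exact st_sub_st.1 h2

/-- An ultrafilter with a bounding base is not Tukey top. -/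
theorem not_top {u b : ZFSet.{0}} {U : Ultrafilter ℕ} (hu : IsUltra Ein om u)
    (hU : ∀ A : Set ℕ, A ∈ U ↔ st A ∈ u) (hb : IsBase Ein b u) (hbd : Bounding Ein om b) :
    ∃ V : Ultrafilter ℕ, ¬ Red U V := by
  obtain ⟨V, X, hX, htop⟩ := exists_top
  refine ⟨V, ?_⟩
  rintro ⟨g, hg, hc⟩
  have h1 : ∀ x : ℕ → Bool, ∃ B : Set ℕ, B ∈ U ∧ st B ∈ b ∧ ∀ A' ∈ U, A' ⊆ B → g A' ⊆ X x := by
    intro x
    obtain ⟨A, hA, hAc⟩ := hc (X x) (hX x)
    obtain ⟨y, hy, hyA⟩ := hb.2 (st A) ((hU A).1 hA)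
    have hyu : y ∈ u := hb.1 y hy
    obtain ⟨B, rfl⟩ := exists_st (hu.1 y hyu)
    refine ⟨B, (hU B).2 hyu, hy, fun A' hA' hAB => hAc A' hA' (hAB.trans (st_sub_st.1 hyA))⟩
  choose B hBU hBb hBc using h1
  obtain ⟨s, hs⟩ : ∃ s : ZFSet.{0}, ∀ z, z ∈ s ↔ ∃ x : ℕ → Bool, st (B x) = z :=
    ⟨ZFSet.range (fun x : ℕ → Bool => st (B x)), fun z => ZFSet.mem_range⟩
  have hfib : ∀ z : ZFSet.{0}, {x : ℕ → Bool | st (B x) = z}.Finite := by
    intro z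
    by_contra hinf
    have hinf' : {x : ℕ → Bool | st (B x) = z}.Infinite := hinf
    obtain ⟨x, hx⟩ := hinf'.nonempty
    refine htop _ hinf' (g (B x)) (hg _ (hBU x)) ?_
    intro x' hx'
    refine hBc x' (B x) (hBU x) ?_
    have h2 : st (B x) = st (B x') := by
      have e1 : st (B x) = z := hx
      have e2 : st (B x') = z := hx'
      rw [e1, e2]
    rw [st_inj h2]
  have hsb : IsSub Ein s b := by
    intro z hz
    obtain ⟨x, rfl⟩ := (hs z).1 hz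
    exact hBb x
  rcases hbd s hsb with ⟨c, hsc, hsurj⟩ | ⟨t, hts, hinj, x0, hx0, hlow⟩
  · obtain ⟨e, he⟩ := exists_enum_of_hasSurj hsurj
    have hcount : (univ : Set (ℕ → Bool)).Countable := by
      have hsub : (univ : Set (ℕ → Bool)) ⊆ ⋃ n : ℕ, {x : ℕ → Bool | st (B x) = e n} := by
        intro x _
        obtain ⟨n, hn⟩ := he (st (B x)) (hsc _ ((hs _).2 ⟨x, rfl⟩))
        exact mem_iUnion.2 ⟨n, hn.symm⟩
      exact (countable_iUnion fun n => (hfib (e n)).countable).mono hsub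
    have h2 : Countable (ℕ → Bool) := countable_univ_iff.1 hcount
    have h3 := Cardinal.mk_le_aleph0_iff.2 h2
    have h4 : Cardinal.mk (ℕ → Bool) = Cardinal.continuum := by
      rw [← Cardinal.power_def, Cardinal.mk_bool, Cardinal.mk_nat, Cardinal.two_power_aleph0]
    rw [h4] at h3
    exact absurd h3 (not_le.2 Cardinal.aleph0_lt_continuum)
  · obtain ⟨e, hei, het⟩ := exists_inj_of_hasInj hinj
    have hx0u : x0 ∈ u := hb.1 x0 hx0
    obtain ⟨A0, rfl⟩ := exists_st (hu.1 x0 hx0u)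
    have hA0 : A0 ∈ U := (hU A0).2 hx0u
    have hJ : {x : ℕ → Bool | st (B x) ∈ t}.Infinite := by
      intro hfin
      have h2 : (range e).Finite := by
        refine (hfin.image (fun x => st (B x))).subset ?_
        rintro _ ⟨n, rfl⟩
        obtain ⟨x, hx⟩ := (hs _).1 (hts _ (het n))
        refine ⟨x, ?_, hx⟩
        show st (B x) ∈ t
        rw [hx]
        exact het n
      exact (infinite_range_of_injective hei) h2
    refine htop _ hJ (g A0) (hg _ hA0) ?_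
    intro x hx
    exact hBc x A0 hA0 (st_sub_st.1 (hlow _ hx))

/-- `(♠)` in Mathlib's universe of sets implies the frozen statement `S15174`. -/
theorem not_q1_of_spade (h : Spade Ein) :
    ¬ (∀ U : Ultrafilter ℕ, (∀ n : ℕ, ({n} : Set ℕ) ∉ U) →
      (∃ V : Ultrafilter ℕ, ¬ ∃ g : Set ℕ → Set ℕ, (∀ A ∈ U, g A ∈ V) ∧
          ∀ B ∈ V, ∃ A ∈ U, ∀ A' ∈ U, A' ⊆ A → g A' ⊆ B) →
      Cardinal.mk {W : Ultrafilter ℕ //
        (∃ g : Set ℕ → Set ℕ, (∀ A ∈ U, g A ∈ W) ∧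
          ∀ B ∈ W, ∃ A ∈ U, ∀ A' ∈ U, A' ⊆ A → g A' ⊆ B) ∧
        (∃ g : Set ℕ → Set ℕ, (∀ A ∈ W, g A ∈ U) ∧
          ∀ B ∈ U, ∃ A ∈ W, ∀ A' ∈ W, A' ⊆ A → g A' ⊆ B)} = Cardinal.continuum) := by
  intro hall
  obtain ⟨w, p, W, hw, hp, hWp, hW, hT⟩ := h
  obtain rfl := eq_om hw
  have hne : ∃ u, u ∈ W := by
    by_contra hcon
    push Not at hcon
    exact hWp (hasInj_of (fun x : {x // x ∈ W} => absurd x.2 (hcon x.1))
      (fun x => absurd x.2 (hcon x.1)))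
  obtain ⟨u, hu⟩ := hne
  have hex : ∀ v : {x // x ∈ W}, ∃ V : Ultrafilter ℕ, (∀ A : Set ℕ, A ∈ V ↔ st A ∈ v.1) ∧
      ∀ n : ℕ, ({n} : Set ℕ) ∉ V := fun v => exists_ultra (hW v.1 v.2).1
  choose V hV hVn using hex
  have hVinj : Function.Injective V := by
    intro v v' hvv
    apply Subtype.ext
    ext x
    constructor
    · intro hx
      obtain ⟨A, rfl⟩ := exists_st ((hW v.1 v.2).1.1 x hx)
      rw [← hV v', ← hvv, hV v]
      exact hx
    · intro hx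
      obtain ⟨A, rfl⟩ := exists_st ((hW v'.1 v'.2).1.1 x hx)
      rw [← hV v, hvv, hV v']
      exact hx
  have hred : ∀ v v' : {x // x ∈ W}, Red (V v) (V v') := fun v v' =>
    red_of_tukeyIn (hW v.1 v.2).1 (hW v'.1 v'.2).1 (hV v) (hV v') (hT v.1 v'.1 v.2 v'.2)
  obtain ⟨b, hb, hbd⟩ := (hW u hu).2
  have hcard := hall (V ⟨u, hu⟩) (hVn ⟨u, hu⟩)
    (not_top (hW u hu).1 (hV ⟨u, hu⟩) hb hbd)
  rw [← Cardinal.mk_set_nat] at hcard
  obtain ⟨e⟩ := Cardinal.eq.1 hcard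
  apply hWp
  refine hasInj_of (fun v => ⟨st (e ⟨V v, hred ⟨u, hu⟩ v, hred v ⟨u, hu⟩⟩),
    (hp _).2 (st_sub _)⟩) ?_
  intro v v' hvv
  have h1 := e.injective (st_inj (congrArg Subtype.val hvv))
  exact hVinj (congrArg Subtype.val h1)

end Pool.Agent.Lib.MP_a6d962_lc
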